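import Pool.Agent.W602.NC.Circ

/-!
Chains of circuits: comparison of all functions with the first one.
-/

set_option autoImplicit false

namespace Pool.Agent.W602.NC

open Filter Metric Real Set Topology Pool.Agent.H159R3.NV

variable {p : ℕ} {g : Fin (p + 1) → ℂ → ℂ}

/-- connected chains of circuits -/
inductive Chain (g : Fin (p + 1) → ℂ → ℂ) : List (Circ g) → Submodule ℂ (ℂ → ℂ) → Prop
  | nil : Chain g [] (Submodule.span ℂ {g 0})
  | cons (C : Circ g) (l : List (Circ g)) (F : Submodule ℂ (ℂ → ℂ)) (h : Chain g l F)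
      (ha : g (C.e C.a) ∈ F) :
      Chain g (C :: l) (F ⊔ Submodule.span ℂ (Set.range fun j => g (C.e j)))

/-- functions dominated by `φ` -/
def Dom (g : Fin (p + 1) → ℂ → ℂ) (φ : ℂ → ℝ) : Submodule ℂ (ℂ → ℂ) where
  carrier := {h | ∃ K : ℝ, ∀ z, (∀ i, g i z ≠ 0) → ‖h z‖ ≤ K * φ z}
  zero_mem' := ⟨0, fun z _ => by simp⟩
  add_mem' := by
    rintro a b ⟨K, hK⟩ ⟨K', hK'⟩
    refine ⟨K + K', fun z hz => ?_⟩
    calc ‖a z + b z‖ ≤ ‖a z‖ + ‖b z‖ := norm_add_le _ _
      _ ≤ K * φ z + K' * φ z := add_le_add (hK z hz) (hK' z hz)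
      _ = _ := by ring
  smul_mem' := by
    rintro c a ⟨K, hK⟩
    refine ⟨‖c‖ * K, fun z hz => ?_⟩
    calc ‖c * a z‖ = ‖c‖ * ‖a z‖ := norm_mul _ _
      _ ≤ ‖c‖ * (K * φ z) := mul_le_mul_of_nonneg_left (hK z hz) (norm_nonneg _)
      _ = _ := by ring

/-- oscillation of a circuit -/
noncomputable def Circ.D (C : Circ g) (z : ℂ) : ℝ := sup C.U z / ‖C.U C.a z‖

noncomputable def prodD (l : List (Circ g)) (z : ℂ) : ℝ := (l.map fun C => C.D z).prod

theorem Circ.one_le_D (C : Circ g) {z : ℂ} (hz : ∀ i, g i z ≠ 0) : 1 ≤ C.D z := by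
  have h : 0 < ‖C.U C.a z‖ := norm_pos_iff.mpr (mul_ne_zero (C.hc _) (hz _))
  unfold Circ.D
  rw [le_div_iff₀ h, one_mul]
  exact le_sup C.U z C.a

theorem one_le_prodD (l : List (Circ g)) {z : ℂ} (hz : ∀ i, g i z ≠ 0) : 1 ≤ prodD l z := by
  induction l with
  | nil => simp [prodD]
  | cons C l ih =>
    have e : prodD (C :: l) z = C.D z * prodD l z := by simp [prodD]
    rw [e]
    have := C.one_le_D hz
    nlinarith

theorem chain_dom {l : List (Circ g)} {F : Submodule ℂ (ℂ → ℂ)} (h : Chain g l F) :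
    F ≤ Dom g (fun z => ‖g 0 z‖ * prodD l z) := by
  induction h with
  | nil =>
    rw [Submodule.span_le]
    rintro _ rfl
    exact ⟨1, fun z _ => by simp [prodD]⟩
  | cons C l F h ha ih =>
    have e : ∀ z, prodD (C :: l) z = C.D z * prodD l z := fun z => by simp [prodD]
    apply sup_le
    · intro f hf
      obtain ⟨K, hK⟩ := ih hf
      refine ⟨|K|, fun z hz => ?_⟩
      have h1 := hK z hz
      have h2 := C.one_le_D hz
      have h3 := one_le_prodD l hz
      have h4 : 0 ≤ ‖g 0 z‖ * prodD l z := by positivity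
      beta_reduce at h1 ⊢
      rw [e]
      calc ‖f z‖ ≤ K * (‖g 0 z‖ * prodD l z) := h1
        _ ≤ |K| * (‖g 0 z‖ * prodD l z) := mul_le_mul_of_nonneg_right (le_abs_self K) h4
        _ ≤ |K| * (‖g 0 z‖ * (C.D z * prodD l z)) := by
          apply mul_le_mul_of_nonneg_left _ (abs_nonneg _)
          apply mul_le_mul_of_nonneg_left _ (norm_nonneg _)
          nlinarith
    · rw [Submodule.span_le]
      rintro _ ⟨j, rfl⟩
      obtain ⟨K, hK⟩ := ih ha
      refine ⟨‖C.c C.a‖ * K / ‖C.c j‖, fun z hz => ?_⟩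
      have h1 := hK z hz
      have hcj : 0 < ‖C.c j‖ := norm_pos_iff.mpr (C.hc j)
      have hua : 0 < ‖C.U C.a z‖ := norm_pos_iff.mpr (mul_ne_zero (C.hc _) (hz _))
      have hua' : ‖C.U C.a z‖ = ‖C.c C.a‖ * ‖g (C.e C.a) z‖ := norm_mul _ _
      have h2 : ‖C.c j‖ * ‖g (C.e j) z‖ ≤ C.D z * ‖C.U C.a z‖ := by
        have h3 : ‖C.U j z‖ = ‖C.c j‖ * ‖g (C.e j) z‖ := norm_mul _ _
        rw [← h3]
        unfold Circ.D
        rw [div_mul_cancel₀ _ hua.ne']
        exact le_sup C.U z j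
      have hD : 0 ≤ C.D z := by linarith [C.one_le_D hz]
      beta_reduce at h1 ⊢
      rw [e, div_mul_eq_mul_div, le_div_iff₀ hcj]
      calc ‖g (C.e j) z‖ * ‖C.c j‖ = ‖C.c j‖ * ‖g (C.e j) z‖ := mul_comm _ _
        _ ≤ C.D z * ‖C.U C.a z‖ := h2
        _ = C.D z * ‖C.c C.a‖ * ‖g (C.e C.a) z‖ := by rw [hua']; ring
        _ ≤ C.D z * ‖C.c C.a‖ * (K * (‖g 0 z‖ * prodD l z)) :=
          mul_le_mul_of_nonneg_left h1 (by positivity)
        _ = _ := by ring

/-- functions vanishing to order at least `N` -/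
def OrdSub (x : ℂ) (N : ℕ∞) : Submodule ℂ (ℂ → ℂ) where
  carrier := {h | AnalyticAt ℂ h x ∧ N ≤ analyticOrderAt h x}
  zero_mem' := by
    refine ⟨analyticAt_const, ?_⟩
    have : analyticOrderAt (0 : ℂ → ℂ) x = ⊤ := by
      rw [analyticOrderAt_eq_top]
      simp
    rw [this]
    exact le_top
  add_mem' := by
    rintro a b ⟨h1, h2⟩ ⟨h3, h4⟩
    exact ⟨h1.add h3, (le_min h2 h4).trans le_analyticOrderAt_add⟩
  smul_mem' := by
    rintro c a ⟨h1, h2⟩
    have e : c • a = (fun _ => c) * a := by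
      funext z
      rfl
    refine ⟨?_, ?_⟩
    · rw [e]; exact analyticAt_const.mul h1
    · rw [e, analyticOrderAt_mul analyticAt_const h1]
      exact h2.trans le_add_self

theorem OrdSub_mono (x : ℂ) {N N' : ℕ∞} (h : N' ≤ N) : OrdSub x N ≤ OrdSub x N' :=
  fun _ hf => ⟨hf.1, h.trans hf.2⟩

theorem chain_ord {l : List (Circ g)} {F : Submodule ℂ (ℂ → ℂ)} (h : Chain g l F)
    (hg : ∀ i, Differentiable ℂ (g i)) (x : ℂ) (n0 : ℕ) (hn0 : (n0 : ℕ∞) ≤ analyticOrderAt (g 0) x)
    (o : Circ g → ℕ) (ho : ∀ C ∈ l, ∀ j, analyticOrderAt (g (C.e C.a)) x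
      ≤ analyticOrderAt (g (C.e j)) x + o C) :
    F ≤ OrdSub x ((n0 - (l.map o).sum : ℕ) : ℕ∞) := by
  induction h with
  | nil =>
    rw [Submodule.span_le]
    rintro _ rfl
    exact ⟨(hg 0).analyticAt x, by simpa using hn0⟩
  | cons C l F h ha ih =>
    have ih' := ih (fun C' hC' => ho C' (List.mem_cons_of_mem _ hC'))
    have e : ((C :: l).map o).sum = (l.map o).sum + o C := by simp [add_comm]
    apply sup_le
    · refine ih'.trans (OrdSub_mono x ?_)
      rw [e]
      exact_mod_cast Nat.sub_le_sub_left (Nat.le_add_right _ _) _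
    · rw [Submodule.span_le]
      rintro _ ⟨j, rfl⟩
      refine ⟨(hg _).analyticAt x, ?_⟩
      have h1 := (ih' ha).2.trans (ho C List.mem_cons_self j)
      rw [e, ← Nat.sub_sub, ENat.natCast_sub, tsub_le_iff_right]
      exact h1

theorem list_L (l : List (Circ g)) (f : Circ g → ℂ → ℂ) (hf : ∀ C, Differentiable ℂ (f C))
    (h0 : ∀ C, f C 0 ≠ 0) {R : ℝ} (hR : R ≠ 0) :
    Differentiable ℂ (fun z => (l.map fun C => f C z).prod) ∧
    (l.map fun C => f C 0).prod ≠ 0 ∧
    L (fun z => (l.map fun C => f C z).prod) R = (l.map fun C => L (f C) R).sum := by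
  induction l with
  | nil =>
    refine ⟨by simp, by simp, ?_⟩
    simp only [List.map_nil, List.prod_nil, List.sum_nil]
    unfold L
    simp [Real.circleAverage_const]
  | cons C l ih =>
    obtain ⟨h1, h2, h3⟩ := ih
    have e : (fun z => ((C :: l).map fun C => f C z).prod)
        = fun z => f C z * (l.map fun C => f C z).prod := by
      funext z; simp
    refine ⟨by rw [e]; exact (hf C).mul h1, by simp [h0 C, h2], ?_⟩
    rw [e, L_mul (hf C) h1 (x := 0) (y := 0) (h0 C) h2 hR, h3]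
    simp

theorem list_ord (l : List (Circ g)) (f : Circ g → ℂ → ℂ) (hf : ∀ C, Differentiable ℂ (f C))
    (x : ℂ) (o : Circ g → ℕ) (ho : ∀ C, analyticOrderAt (f C) x = o C) :
    Differentiable ℂ (fun z => (l.map fun C => f C z).prod) ∧
    analyticOrderAt (fun z => (l.map fun C => f C z).prod) x = ((l.map o).sum : ℕ) := by
  induction l with
  | nil =>
    refine ⟨by simp, ?_⟩
    simp only [List.map_nil, List.prod_nil, List.sum_nil]
    rw [Nat.cast_zero, analyticOrderAt_eq_zero]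
    right
    exact one_ne_zero
  | cons C l ih =>
    obtain ⟨h1, h3⟩ := ih
    have e : (fun z => ((C :: l).map fun C => f C z).prod)
        = (f C) * fun z => (l.map fun C => f C z).prod := by
      funext z; simp
    have e' : Differentiable ℂ (fun z => ((C :: l).map fun C => f C z).prod) := by
      rw [e]; exact (hf C).mul h1
    refine ⟨e', ?_⟩
    rw [e, analyticOrderAt_mul ((hf C).analyticAt x) (h1.analyticAt x), h3, ho]
    simp

theorem list_avg (l : List (Circ g)) (f : Circ g → ℂ → ℝ) {s : ℝ}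
    (hf : ∀ C, CircleIntegrable (f C) 0 s) :
    CircleIntegrable (fun z => (l.map fun C => f C z).sum) 0 s ∧
    Real.circleAverage (fun z => (l.map fun C => f C z).sum) 0 s
      = (l.map fun C => Real.circleAverage (f C) 0 s).sum := by
  induction l with
  | nil =>
    refine ⟨?_, ?_⟩
    · simp only [List.map_nil, List.sum_nil]
      exact circleIntegrable_const _ _ _
    · simp [Real.circleAverage_const]
  | cons C l ih =>
    obtain ⟨h1, h2⟩ := ih
    have e : (fun z => ((C :: l).map fun C => f C z).sum)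
        = fun z => f C z + (l.map fun C => f C z).sum := by
      funext z; simp
    refine ⟨by rw [e]; exact (hf C).add h1, ?_⟩
    rw [e, Real.circleAverage_fun_add (hf C) h1, h2]
    simp

end Pool.Agent.W602.NC
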