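import Pool.Agent.W602.NC.Wr

/-!
Circuits and the second main theorem for one circuit.
-/

set_option autoImplicit false

namespace Pool.Agent.W602.NC

open Filter Metric Real Set Topology Pool.Agent.H159R3.NV

/-- largest modulus -/
noncomputable def sup {m : ℕ} (v : Fin (m + 1) → ℂ → ℂ) (z : ℂ) : ℝ :=
  Finset.univ.sup' Finset.univ_nonempty (fun j => ‖v j z‖)

theorem le_sup {m : ℕ} (v : Fin (m + 1) → ℂ → ℂ) (z : ℂ) (j : Fin (m + 1)) : ‖v j z‖ ≤ sup v z :=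
  Finset.le_sup' (fun j => ‖v j z‖) (Finset.mem_univ j)

theorem sup_attained {m : ℕ} (v : Fin (m + 1) → ℂ → ℂ) (z : ℂ) : ∃ j, sup v z = ‖v j z‖ := by
  obtain ⟨i, _, hi⟩ := Finset.exists_mem_eq_sup' Finset.univ_nonempty
      (fun j : Fin (m + 1) => ‖v j z‖)
  exact ⟨i, hi⟩

theorem sup_cont {m : ℕ} {v : Fin (m + 1) → ℂ → ℂ} (hv : ∀ j, Differentiable ℂ (v j)) :
    Continuous (sup v) :=
  Continuous.finset_sup'_apply _ (fun j _ => (hv j).continuous.norm)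

/-- mean of the logarithm of the largest modulus -/
noncomputable def tau {m : ℕ} (v : Fin (m + 1) → ℂ → ℂ) (s : ℝ) : ℝ :=
  Real.circleAverage (fun z => Real.log (sup v z)) 0 s

theorem sph_norm {s : ℝ} (hs : 0 < s) {z : ℂ} (hz : z ∈ sphere (0 : ℂ) |s|) : ‖z‖ = s := by
  rw [mem_sphere, dist_zero_right, abs_of_pos hs] at hz
  exact hz

theorem tau_int {m : ℕ} {v : Fin (m + 1) → ℂ → ℂ} (hv : ∀ j, Differentiable ℂ (v j)) {s : ℝ}
    (hs : 0 < s) (hne : ∀ z, ‖z‖ = s → ∃ j, v j z ≠ 0) :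
    CircleIntegrable (fun z => Real.log (sup v z)) 0 s := by
  apply ContinuousOn.circleIntegrable'
  apply ContinuousOn.log (sup_cont hv).continuousOn
  intro z hz
  obtain ⟨j, hj⟩ := hne z (sph_norm hs hz)
  exact ((norm_pos_iff.mpr hj).trans_le (le_sup v z j)).ne'

theorem L_le_tau {m : ℕ} {v : Fin (m + 1) → ℂ → ℂ} (hv : ∀ j, Differentiable ℂ (v j)) {s : ℝ}
    (hs : 0 < s) (hne : ∀ z, ‖z‖ = s → ∀ j, v j z ≠ 0) (j : Fin (m + 1)) : L (v j) s ≤ tau v s := by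
  apply Real.circleAverage_mono (ci_log (mero_of_diff (hv j)) s)
    (tau_int hv hs fun z hz => ⟨0, hne z hz 0⟩)
  intro z hz
  exact Real.log_le_log (norm_pos_iff.mpr (hne z (sph_norm hs hz) j)) (le_sup v z j)

/-- the error term -/
noncomputable def err (m : ℕ) (ε : ℝ) : ℝ :=
  Real.log (Nat.factorial m) + m * (Real.log (Nat.factorial m) + 1) + m ^ 2 * Real.log (1 / ε)

theorem upper {m : ℕ} (v : Fin (m + 1) → ℂ → ℂ) (hv : ∀ j, Differentiable ℂ (v j))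
    (hs : ∀ z, ∑ j, v j z = 0) (hW : wr 1 v 0 0 ≠ 0) {s ε : ℝ} (hs0 : 0 < s)
    (hε : 0 < ε) (hε1 : ε ≤ 1)
    (h0 : ∀ z, ‖z‖ = s → ∀ j, ∀ w ∈ closedBall z ε, v j w ≠ 0)
    (hb : ∀ z, ‖z‖ = s → ∀ j, ∀ w ∈ closedBall z ε,
      ‖v j w / v 0 w‖ ≤ Real.exp 1 * ‖v j z / v 0 z‖) :
    L (wr 1 v 0) s ≤ err m ε + ∑ j, L (v j) s - tau v s := by
  have hne : ∀ z, ‖z‖ = s → ∀ j, v j z ≠ 0 :=
    fun z hz j => h0 z hz j z (mem_closedBall_self hε.le)
  have hGint : CircleIntegrable (fun z => Real.log (sup v z)) 0 s :=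
    tau_int hv hs0 fun z hz => ⟨0, hne z hz 0⟩
  have hsumint : CircleIntegrable (fun z => ∑ j, Real.log ‖v j z‖) 0 s :=
    CircleIntegrable.fun_sum _ (fun j _ => ci_log (mero_of_diff (hv j)) s)
  have i3 : CircleIntegrable (fun z => err m ε + ∑ j, Real.log ‖v j z‖) 0 s :=
    (circleIntegrable_const _ _ _).add hsumint
  have e1 : err m ε + ∑ j, L (v j) s - tau v s
      = Real.circleAverage (fun z => (err m ε + ∑ j, Real.log ‖v j z‖) - Real.log (sup v z))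
        0 s := by
    rw [Real.circleAverage_fun_sub i3 hGint, Real.circleAverage_fun_add
      (circleIntegrable_const _ _ _) hsumint, Real.circleAverage_const,
      Real.circleAverage_fun_sum (fun j _ => ci_log (mero_of_diff (hv j)) s)]
    rfl
  rw [e1]
  apply avg_le_cod (ci_log (mero_of_diff (wr_diff 1 v hv 0)) s) (i3.sub hGint) hs0.ne'
  filter_upwards [ne_cod (wr_diff 1 v hv 0) hW s, self_mem_codiscreteWithin _] with z hz hzs
  have hz' := sph_norm hs0 hzs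
  obtain ⟨i, hi⟩ := sup_attained v z
  have hup := point_upper (N := 1) v hv hε hε1 (h0 z hz' 0) (hb z hz') i
  obtain ⟨e, he, hee⟩ := wr_norm 1 v hv (by simpa using hs) i
  have hnorm : ‖wr 1 v i z‖ = ‖wr 1 v 0 z‖ := by
    rw [hee z, norm_mul]
    rcases he with rfl | rfl <;> simp
  rw [hnorm] at hup
  have hpos : 0 < ‖wr 1 v 0 z‖ := norm_pos_iff.mpr hz
  have h1 := Real.log_le_log hpos hup
  have hprod : (∏ b : Fin m, ‖v (i.succAbove b) z‖ ^ 1) ≠ 0 :=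
    Finset.prod_ne_zero_iff.mpr fun b _ => pow_ne_zero _ (norm_ne_zero_iff.mpr (hne z hz' _))
  have hfac : ((Nat.factorial m : ℕ) : ℝ) ≠ 0 := by exact_mod_cast Nat.factorial_ne_zero m
  have hexp : Real.exp ((1 : ℕ) : ℝ) ≠ 0 := Real.exp_ne_zero _
  have hεp : (1 / ε) ^ m ≠ 0 := pow_ne_zero _ (by positivity)
  rw [Real.log_mul (mul_ne_zero hfac (pow_ne_zero _ (mul_ne_zero (mul_ne_zero hfac hexp) hεp)))
    hprod, Real.log_mul hfac (pow_ne_zero _ (mul_ne_zero (mul_ne_zero hfac hexp) hεp)),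
    Real.log_pow, Real.log_mul (mul_ne_zero hfac hexp) hεp, Real.log_mul hfac hexp,
    Real.log_exp, Real.log_pow] at h1
  rw [Real.log_prod (fun b _ => pow_ne_zero _ (norm_ne_zero_iff.mpr (hne z hz' _)))] at h1
  simp only [pow_one] at h1
  have h2 : ∑ j, Real.log ‖v j z‖ = Real.log ‖v i z‖
      + ∑ b : Fin m, Real.log ‖v (i.succAbove b) z‖ :=
    Fin.sum_univ_succAbove (fun j => Real.log ‖v j z‖) i
  change Real.log ‖wr 1 v 0 z‖ ≤ (err m ε + ∑ j, Real.log ‖v j z‖) - Real.log (sup v z)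
  rw [h2, hi, err]
  push_cast at h1
  linarith

/-- a circuit among the functions `g i`, with a marked element -/
structure Circ {p : ℕ} (g : Fin (p + 1) → ℂ → ℂ) where
  m : ℕ
  hm : 1 ≤ m
  e : Fin (m + 1) → Fin (p + 1)
  c : Fin (m + 1) → ℂ
  hc : ∀ j, c j ≠ 0
  rel : ∀ z, ∑ j, c j * g (e j) z = 0
  ind : ∀ b : Fin m → ℂ, (∀ z, ∑ j, b j * g (e j.succ) z = 0) → b = 0
  a : Fin (m + 1)

/-- the functions of the circuit -/
noncomputable def Circ.U {p : ℕ} {g : Fin (p + 1) → ℂ → ℂ} (C : Circ g) (j : Fin (C.m + 1)) (z : ℂ) :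
    ℂ := C.c j * g (C.e j) z

theorem Circ.U_diff {p : ℕ} {g : Fin (p + 1) → ℂ → ℂ} (hg : ∀ i, Differentiable ℂ (g i))
    (C : Circ g) (j : Fin (C.m + 1)) : Differentiable ℂ (C.U j) := (hg _).const_mul _

theorem Circ.wr_ne {p : ℕ} {g : Fin (p + 1) → ℂ → ℂ} (hg : ∀ i, Differentiable ℂ (g i))
    (C : Circ g) : ∃ z, wr 1 C.U 0 z ≠ 0 := by
  obtain ⟨z, hz⟩ := wron_ne (fun b : Fin C.m => C.U b.succ) (fun b => C.U_diff hg _) (by
    intro b hb
    have h1 := C.ind (fun j => b j * C.c j.succ) (by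
      intro z
      rw [← hb z]
      refine Finset.sum_congr rfl fun j _ => ?_
      unfold Circ.U
      ring)
    funext j
    have h2 := congrFun h1 j
    exact (mul_eq_zero.mp h2).resolve_right (C.hc _))
  refine ⟨z, ?_⟩
  unfold wr
  simpa only [Fin.succAbove_zero, pow_one] using hz

/-- the constant in the estimate for a circuit -/
noncomputable def Circ.K {p : ℕ} {g : Fin (p + 1) → ℂ → ℂ} (C : Circ g) (M κ : ℕ) : ℝ :=
  M * Real.log ‖wr 1 C.U 0 0‖ + κ * ∑ i, Real.log ‖g i 0‖ - M * ∑ j, Real.log ‖C.U j 0‖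

/-- second main theorem for one circuit -/
theorem Circ.smt {p M κ : ℕ} {g : Fin (p + 1) → ℂ → ℂ} (hg : ∀ i, Differentiable ℂ (g i))
    (hg0 : ∀ i, g i 0 ≠ 0) (C : Circ g) (hW : wr 1 C.U 0 0 ≠ 0) (hκ : C.m * (C.m - 1) ≤ κ)
    (hord : ∀ z, (∃ i, g i z = 0) → (M : ℕ∞) ≤ ∑ i, analyticOrderAt (g i) z)
    {q : ℂ → ℂ} {v : Fin (C.m + 1) → ℂ → ℂ} (hq : Differentiable ℂ q) (hq0 : q 0 = 1)
    (hv : ∀ j, Differentiable ℂ (v j)) (hfac : ∀ j z, C.U j z = q z * v j z) {s ε : ℝ}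
    (hcz : ∀ z, ‖z‖ ≤ s → ∃ j, v j z ≠ 0) (hs0 : 0 < s) (hε : 0 < ε) (hε1 : ε ≤ 1)
    (h0 : ∀ z, ‖z‖ = s → ∀ i, ∀ w ∈ closedBall z ε, g i w ≠ 0)
    (hb : ∀ z, ‖z‖ = s → ∀ i j, ∀ w ∈ closedBall z ε,
      ‖g j w / g i w‖ ≤ Real.exp 1 * ‖g j z / g i z‖) :
    M * tau v s ≤ M * err C.m ε + κ * ∑ i, L (g i) s - C.K M κ := by
  have hU0 : ∀ j, C.U j 0 ≠ 0 := fun j => mul_ne_zero (C.hc j) (hg0 _)
  have hvU : ∀ j, v j 0 = C.U j 0 := fun j => by rw [hfac, hq0, one_mul]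
  have hrel : ∀ z, ∑ j, v j z = 0 := by
    have h1 : Differentiable ℂ (fun z => ∑ j, v j z) := Differentiable.fun_sum fun j _ => hv j
    have h2 : ∀ z, q z * (fun z => ∑ j, v j z) z = 0 := by
      intro z
      change q z * ∑ j, v j z = 0
      rw [← C.rel z, Finset.mul_sum]
      exact Finset.sum_congr rfl fun j _ => (hfac j z).symm
    rcases ent_eq_zero_or hq h1 h2 with h | h
    · exfalso
      have h3 : q 0 = 0 := congrFun h 0
      rw [hq0] at h3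
      exact one_ne_zero h3
    · exact fun z => congrFun h z
  have hWv : wr 1 v 0 0 = wr 1 C.U 0 0 := by
    have h1 := wr_scale 1 q hq v hv 0 0
    rw [hq0, one_pow, one_mul] at h1
    rw [← h1]
    have : (fun j w => q w * v j w) = C.U := by
      funext j w
      exact (hfac j w).symm
    rw [this]
  have hne : ∀ z, ‖z‖ = s → ∀ j, ∀ w ∈ closedBall z ε, q w ≠ 0 ∧ v j w ≠ 0 := by
    intro z hz j w hw
    have h1 : C.U j w ≠ 0 := mul_ne_zero (C.hc j) (h0 z hz _ w hw)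
    rw [hfac] at h1
    exact ⟨left_ne_zero_of_mul h1, right_ne_zero_of_mul h1⟩
  have hratio : ∀ z, ‖z‖ = s → ∀ j, ∀ w ∈ closedBall z ε,
      v j w / v 0 w = (C.c j / C.c 0) * (g (C.e j) w / g (C.e 0) w) := by
    intro z hz j w hw
    have h1 := hne z hz j w hw
    have h2 := hne z hz 0 w hw
    have h3 : v j w / v 0 w = C.U j w / C.U 0 w := by
      rw [hfac, hfac, mul_div_mul_left _ _ h1.1]
    rw [h3]
    unfold Circ.U
    rw [mul_div_mul_comm]
  have h1 := upper v hv hrel (by rw [hWv]; exact hW) hs0 hε hε1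
    (fun z hz j w hw => (hne z hz j w hw).2) (by
      intro z hz j w hw
      rw [hratio z hz j w hw, hratio z hz j z (mem_closedBall_self hε.le), norm_mul, norm_mul]
      have := hb z hz (C.e 0) (C.e j) w hw
      calc _ ≤ ‖C.c j / C.c 0‖ * (Real.exp 1 * ‖g (C.e j) z / g (C.e 0) z‖) :=
            mul_le_mul_of_nonneg_left this (norm_nonneg _)
        _ = _ := by ring)
  have h2 := lower (M := M) (κ := κ) g hg hg0 v hv (fun j => by rw [hvU]; exact hU0 j) hrel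
    (by rw [hWv]; exact hW) hs0 hcz (by
      intro j z hz
      refine ⟨C.e j, ?_⟩
      have : C.U j z = 0 := by rw [hfac, hz, mul_zero]
      exact (mul_eq_zero.mp this).resolve_left (C.hc j)) hκ hord
  rw [hWv] at h2
  simp only [hvU] at h2
  unfold Circ.K
  have hM : (0 : ℝ) ≤ M := Nat.cast_nonneg M
  have h3 := mul_le_mul_of_nonneg_left h1 hM
  nlinarith [h2, h3]

end Pool.Agent.W602.NC
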