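import Pool.Agent.W602.NC.Chain

/-!
Existence of chains of circuits for families of functions which cannot be separated.
-/

set_option autoImplicit false

namespace Pool.Agent.W602.NC

open Pool.Agent.H159R3.NV

variable {p : ℕ} {g : Fin (p + 1) → ℂ → ℂ}

/-- relations -/
def Rel (g : Fin (p + 1) → ℂ → ℂ) (c : Fin (p + 1) → ℂ) : Prop := ∀ z, ∑ i, c i * g i z = 0

/-- the family cannot be separated -/
def Conn (g : Fin (p + 1) → ℂ → ℂ) : Prop :=
  ∀ κ : Finset (Fin (p + 1)), κ.Nonempty → κ ≠ Finset.univ →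
    ∃ c, Rel g c ∧ ∃ z, ∑ i ∈ κ, c i * g i z ≠ 0

theorem crossing (κ : Finset (Fin (p + 1)))
    (h : ∃ c, Rel g c ∧ ∃ z, ∑ i ∈ κ, c i * g i z ≠ 0) :
    ∃ C : Circ g, C.e C.a ∈ κ ∧ ∃ j, C.e j ∉ κ := by
  classical
  let P : ℕ → Prop := fun k => ∃ c, (Rel g c ∧ ∃ z, ∑ i ∈ κ, c i * g i z ≠ 0) ∧
    (Finset.univ.filter fun i => c i ≠ 0).card = k
  have hP : ∃ k, P k := by
    obtain ⟨c, hc⟩ := h
    exact ⟨_, c, hc, rfl⟩
  obtain ⟨c, ⟨hrel, z1, hz1⟩, hcard⟩ := Nat.find_spec hP
  have hmin : ∀ d, Rel g d → (∃ z, ∑ i ∈ κ, d i * g i z ≠ 0) →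
      (Finset.univ.filter fun i => c i ≠ 0).card ≤ (Finset.univ.filter fun i => d i ≠ 0).card := by
    intro d h1 h2
    rw [hcard]
    exact Nat.find_min' hP ⟨d, ⟨h1, h2⟩, rfl⟩
  set S := Finset.univ.filter fun i => c i ≠ 0 with hS
  have hmemS : ∀ i, i ∈ S ↔ c i ≠ 0 := fun i => by simp [hS]
  obtain ⟨a, haS, haκ⟩ : ∃ a, a ∈ S ∧ a ∈ κ := by
    by_contra hcon
    push Not at hcon
    apply hz1
    apply Finset.sum_eq_zero
    intro i hi
    have : c i = 0 := by
      by_contra h0
      exact hcon i ((hmemS i).mpr h0) hi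
    rw [this, zero_mul]
  obtain ⟨b, hbS, hbκ⟩ : ∃ b, b ∈ S ∧ b ∉ κ := by
    by_contra hcon
    push Not at hcon
    apply hz1
    rw [← hrel z1]
    apply Finset.sum_subset (Finset.subset_univ κ)
    intro i _ hi
    have : c i = 0 := by
      by_contra h0
      exact hi (hcon i ((hmemS i).mpr h0))
    rw [this, zero_mul]
  have hab : a ≠ b := fun h => hbκ (h ▸ haκ)
  have hcard2 : 2 ≤ S.card := by
    have : ({a, b} : Finset (Fin (p + 1))) ⊆ S := by
      intro x hx
      rcases Finset.mem_insert.mp hx with rfl | hx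
      · exact haS
      · rw [Finset.mem_singleton.mp hx]; exact hbS
    have h2 := Finset.card_le_card this
    rwa [Finset.card_pair hab] at h2
  obtain ⟨m, hm⟩ : ∃ m, S.card = m + 1 := ⟨S.card - 1, by omega⟩
  let e : Fin (m + 1) ≃ S := (Finset.equivFinOfCardEq hm).symm
  have hinj : Function.Injective fun j => ((e j : S) : Fin (p + 1)) :=
    Subtype.val_injective.comp e.injective
  have hsumS : ∀ f : Fin (p + 1) → ℂ, (∀ i, i ∉ S → f i = 0) → ∑ j, f (e j) = ∑ i, f i := by
    intro f hf
    have h1 : ∑ j, f (e j) = ∑ i ∈ S, f i := by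
      rw [← Finset.sum_coe_sort S f]
      exact Equiv.sum_comp e (fun i : S => f i)
    rw [h1]
    exact Finset.sum_subset (Finset.subset_univ S) (fun i _ hi => hf i hi)
  refine ⟨⟨m, by omega, fun j => e j, fun j => c (e j), fun j => (hmemS _).mp (e j).2, ?_, ?_,
    e.symm ⟨a, haS⟩⟩, by simpa using haκ, e.symm ⟨b, hbS⟩, by simpa using hbκ⟩
  · intro z
    rw [hsumS (fun i => c i * g i z) (fun i hi => by
      have : c i = 0 := by
        by_contra h0
        exact hi ((hmemS i).mpr h0)
      rw [this, zero_mul])]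
    exact hrel z
  · intro b' hb'
    by_contra hne
    let d : Fin (p + 1) → ℂ := fun i => ∑ j : Fin m, if (e j.succ : Fin (p + 1)) = i then b' j else 0
    have hd_e : ∀ j : Fin m, d (e j.succ) = b' j := by
      intro j
      simp only [d]
      rw [Finset.sum_eq_single j]
      · simp
      · intro k _ hk
        rw [if_neg]
        intro h0
        exact hk (Fin.succ_injective _ (hinj h0))
      · simp
    have hd_0 : d (e 0) = 0 := by
      simp only [d]
      apply Finset.sum_eq_zero
      intro k _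
      rw [if_neg]
      intro h0
      exact Fin.succ_ne_zero k (hinj h0)
    have hd_S : ∀ i, i ∉ S → d i = 0 := by
      intro i hi
      simp only [d]
      apply Finset.sum_eq_zero
      intro k _
      rw [if_neg]
      intro h0
      exact hi (h0 ▸ (e k.succ).2)
    have hdrel : Rel g d := by
      intro z
      rw [← hsumS (fun i => d i * g i z) (fun i hi => by rw [hd_S i hi, zero_mul]),
        Fin.sum_univ_succ, hd_0, zero_mul, zero_add, ← hb' z]
      exact Finset.sum_congr rfl fun j _ => by rw [hd_e]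
    obtain ⟨j0, hj0⟩ := Function.ne_iff.mp hne
    have hlt : ∀ (f : Fin (p + 1) → ℂ) (i0 : Fin (p + 1)), i0 ∈ S → f i0 = 0 →
        (∀ i, i ∉ S → f i = 0) → (Finset.univ.filter fun i => f i ≠ 0).card < S.card := by
      intro f i0 hi0 hf0 hfS
      apply Finset.card_lt_card
      rw [Finset.ssubset_iff_of_subset]
      · exact ⟨i0, hi0, by simp [hf0]⟩
      · intro i hi
        by_contra h0
        exact (Finset.mem_filter.mp hi).2 (hfS i h0)
    by_cases hcase : ∃ z, ∑ i ∈ κ, d i * g i z ≠ 0
    · have h1 := hmin d hdrel hcase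
      have h2 := hlt d (e 0) (e 0).2 hd_0 hd_S
      omega
    · push Not at hcase
      set i0 : Fin (p + 1) := ((e j0.succ : S) : Fin (p + 1)) with hi0
      have hdi0 : d i0 ≠ 0 := by rw [hi0, hd_e]; exact hj0
      let f : Fin (p + 1) → ℂ := fun i => c i - c i0 / d i0 * d i
      have hfrel : Rel g f := by
        intro z
        have : ∀ i, f i * g i z = c i * g i z - c i0 / d i0 * (d i * g i z) := fun i => by
          simp only [f]; ring
        rw [Finset.sum_congr rfl (fun i _ => this i), Finset.sum_sub_distrib, ← Finset.mul_sum,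
          hrel z, hdrel z, mul_zero, sub_zero]
      have hfκ : ∃ z, ∑ i ∈ κ, f i * g i z ≠ 0 := by
        refine ⟨z1, ?_⟩
        have : ∀ i, f i * g i z1 = c i * g i z1 - c i0 / d i0 * (d i * g i z1) := fun i => by
          simp only [f]; ring
        rw [Finset.sum_congr rfl (fun i _ => this i), Finset.sum_sub_distrib, ← Finset.mul_sum,
          hcase z1, mul_zero, sub_zero]
        exact hz1
      have h1 := hmin f hfrel hfκ
      have h2 := hlt f i0 (e j0.succ).2 (by simp only [f]; field_simp; ring) (fun i hi => by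
        have hci : c i = 0 := by
          by_contra h0
          exact hi ((hmemS i).mpr h0)
        simp only [f]
        rw [hci, hd_S i hi]
        ring)
      omega

/-- the span of the functions -/
def W (g : Fin (p + 1) → ℂ → ℂ) : Submodule ℂ (ℂ → ℂ) := Submodule.span ℂ (Set.range g)

instance (g : Fin (p + 1) → ℂ → ℂ) : FiniteDimensional ℂ (W g) := by
  unfold W
  exact FiniteDimensional.span_of_finite ℂ (Set.finite_range g)

theorem mem_W (g : Fin (p + 1) → ℂ → ℂ) (i : Fin (p + 1)) : g i ∈ W g :=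
  Submodule.subset_span ⟨i, rfl⟩

theorem Circ.m_le (C : Circ g) : C.m ≤ Module.finrank ℂ (W g) := by
  have h1 : LinearIndependent ℂ (fun j : Fin C.m => (⟨g (C.e j.succ), mem_W g _⟩ : W g)) := by
    rw [Fintype.linearIndependent_iff]
    intro b hb j
    have h2 := C.ind b (by
      intro z
      have h3 := congrArg (fun f : W g => (f : ℂ → ℂ) z) hb
      simpa using h3)
    exact congrFun h2 j
  have h2 := h1.fintype_card_le_finrank
  simpa using h2

theorem exists_chain (h0 : g 0 ≠ 0) (hc : Conn g) :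
    ∃ (l : List (Circ g)) (F : Submodule ℂ (ℂ → ℂ)), Chain g l F ∧ (∀ i, g i ∈ F) ∧
      l.length + 1 ≤ Module.finrank ℂ (W g) := by
  classical
  have key : ∀ k : ℕ, ∃ (l : List (Circ g)) (F : Submodule ℂ (ℂ → ℂ)), Chain g l F ∧ F ≤ W g ∧
      l.length + 1 ≤ Module.finrank ℂ F ∧ ((∀ i, g i ∈ F) ∨ k ≤ Module.finrank ℂ F) := by
    intro k
    induction k with
    | zero =>
      refine ⟨[], Submodule.span ℂ {g 0}, Chain.nil, ?_, ?_, Or.inr (Nat.zero_le _)⟩
      · rw [Submodule.span_le]
        rintro _ rfl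
        exact mem_W g 0
      · rw [finrank_span_singleton h0]
        simp
    | succ k ih =>
      obtain ⟨l, F, hch, hFW, hlen, hor⟩ := ih
      by_cases hall : ∀ i, g i ∈ F
      · exact ⟨l, F, hch, hFW, hlen, Or.inl hall⟩
      have hk : k ≤ Module.finrank ℂ F := hor.resolve_left hall
      push Not at hall
      obtain ⟨i1, hi1⟩ := hall
      have h0F : g 0 ∈ F := by
        clear hlen hor hk hFW hi1 i1
        induction hch with
        | nil => exact Submodule.subset_span rfl
        | cons C l F h ha ih => exact Submodule.mem_sup_left ih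
      obtain ⟨C, hCa, j, hCj⟩ := crossing (g := g) (Finset.univ.filter fun i => g i ∈ F)
        (hc _ ⟨0, by simp [h0F]⟩ (by
          intro h1
          have : i1 ∈ Finset.univ.filter fun i => g i ∈ F := by rw [h1]; exact Finset.mem_univ _
          exact hi1 (Finset.mem_filter.mp this).2))
      have hCa' : g (C.e C.a) ∈ F := (Finset.mem_filter.mp hCa).2
      have hCj' : g (C.e j) ∉ F := fun h1 => hCj (Finset.mem_filter.mpr ⟨Finset.mem_univ _, h1⟩)
      set F' := F ⊔ Submodule.span ℂ (Set.range fun j => g (C.e j)) with hF'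
      have hF'W : F' ≤ W g := sup_le hFW (by
        rw [Submodule.span_le]
        rintro _ ⟨j, rfl⟩
        exact mem_W g _)
      have : FiniteDimensional ℂ F' := Submodule.finiteDimensional_of_le hF'W
      have hlt : F < F' := by
        refine lt_of_le_of_ne le_sup_left ?_
        intro h1
        apply hCj'
        rw [h1]
        exact Submodule.mem_sup_right (Submodule.subset_span ⟨j, rfl⟩)
      have hfr := Submodule.finrank_lt_finrank_of_lt hlt
      refine ⟨C :: l, F', Chain.cons C l F hch hCa', hF'W, ?_, Or.inr (by omega)⟩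
      rw [List.length_cons]
      omega
  obtain ⟨l, F, hch, hFW, hlen, hor⟩ := key (Module.finrank ℂ (W g) + 1)
  have hle := Submodule.finrank_mono hFW
  refine ⟨l, F, hch, hor.resolve_right (by omega), by omega⟩

end Pool.Agent.W602.NC
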