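import Pool.Agent.W602.NC.Main
import Pool.Agent.W602.NC.Exist

/-!
Highly ramified families of entire functions can be separated.
-/

set_option autoImplicit false

namespace Pool.Agent.W602.NC

open Filter Metric Real Set Topology Pool.Agent.H159R3.NV

variable {p : ℕ} {g : Fin (p + 1) → ℂ → ℂ}

/-- translation of a circuit -/
def Circ.shift (C : Circ g) (z0 : ℂ) : Circ (fun i z => g i (z + z0)) where
  m := C.m
  hm := C.hm
  e := C.e
  c := C.c
  hc := C.hc
  rel := fun z => C.rel (z + z0)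
  ind := fun b hb => C.ind b (fun z => by
    have := hb (z - z0)
    simpa using this)
  a := C.a

theorem Chain.shift {l : List (Circ g)} {F : Submodule ℂ (ℂ → ℂ)} (h : Chain g l F) (z0 : ℂ) :
    Chain (fun i z => g i (z + z0)) (l.map fun C => C.shift z0)
      (F.map (LinearMap.funLeft ℂ ℂ fun z => z + z0)) := by
  induction h with
  | nil =>
    rw [Submodule.map_span]
    simp only [Set.image_singleton, List.map_nil]
    exact Chain.nil
  | cons C l F h ha ih =>
    rw [Submodule.map_sup, Submodule.map_span, ← Set.range_comp]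
    exact Chain.cons (C.shift z0) _ _ ih ⟨_, ha, rfl⟩

theorem T2_le_tau (hg : ∀ i, Differentiable ℂ (g i)) {s : ℝ} (hs : 0 < s)
    (hne : ∀ z, ‖z‖ = s → ∀ j, g j z ≠ 0) (j : Fin (p + 1)) : T2 (g 0) (g j) s ≤ tau g s := by
  unfold T2
  unfold L
  rw [← Real.circleAverage_fun_add (ci_log (mero_of_diff (hg 0)) s)
    (ci_posLog (quot_mero (hg 0) (hg j)) s)]
  apply Real.circleAverage_mono ((ci_log (mero_of_diff (hg 0)) s).add
    (ci_posLog (quot_mero (hg 0) (hg j)) s)) (tau_int hg hs fun z hz => ⟨0, hne z hz 0⟩)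
  intro z hz
  have hz' := sph_norm hs hz
  have p0 := norm_pos_iff.mpr (hne z hz' 0)
  have pj := norm_pos_iff.mpr (hne z hz' j)
  change Real.log ‖g 0 z‖ + Real.posLog ‖g j z / g 0 z‖ ≤ Real.log (sup g z)
  rw [Real.posLog_apply, norm_div, Real.log_div pj.ne' p0.ne']
  have h1 : Real.log ‖g 0 z‖ ≤ Real.log (sup g z) := Real.log_le_log p0 (le_sup g z 0)
  have h2 : Real.log ‖g j z‖ ≤ Real.log (sup g z) := Real.log_le_log pj (le_sup g z j)
  rcases max_cases (0 : ℝ) (Real.log ‖g j z‖ - Real.log ‖g 0 z‖) with ⟨h3, _⟩ | ⟨h3, _⟩ <;>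
    rw [h3] <;> linarith

/-- logarithmic growth -/
theorem log_growth {n κ M : ℕ} (hg : ∀ i, Differentiable ℂ (g i)) (hg0 : ∀ i, g i 0 ≠ 0)
    (hcz : ∀ z, ∃ i, g i z ≠ 0)
    (hord : ∀ z, (∃ i, g i z = 0) → (M : ℕ∞) ≤ ∑ i, analyticOrderAt (g i) z)
    {l : List (Circ g)} {F : Submodule ℂ (ℂ → ℂ)} (hch : Chain g l F) (hF : ∀ i, g i ∈ F)
    (hW : ∀ C ∈ l, wr 1 C.U 0 0 ≠ 0) (hκ : ∀ C ∈ l, C.m * (C.m - 1) ≤ κ)
    (hmn : ∀ C ∈ l, C.m ≤ n + 1) (hlen : l.length ≤ n) (hM : n * κ * (p + 1) < M) :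
    ∃ Λ K1 K2 : ℝ, Base g Λ ∧ 0 ≤ K2 ∧ ∀ r, 1 ≤ r → SS g Λ r ≤ K1 + K2 * Real.log (r + 3) := by
  set Λ : ℝ := ∑ j, |Real.log ‖g j 0‖| with hΛdef
  have hΛ : ∀ j, |Real.log ‖g j 0‖| ≤ Λ := fun j =>
    Finset.single_le_sum (f := fun j => |Real.log ‖g j 0‖|) (fun i _ => abs_nonneg _)
      (Finset.mem_univ j)
  have hB : Base g Λ := ⟨hg, hg0, Finset.sum_nonneg fun i _ => abs_nonneg _, hΛ⟩
  obtain ⟨A, B, hA, hB0, hAB⟩ := circle_bound hg hg0 hcz hord hch hF hW hκ hmn hlen hM hΛ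
  refine ⟨Λ, 1 + 2 * ((p + 1) * (A + B * Real.log 2)) + 2 * ((p + 1) * B) * 7
    + 576 * ((p + 1) * B) ^ 2, 2 * ((p + 1) * B) * 3, hB, by positivity, ?_⟩
  intro r0 hr0
  have hlog2 : 0 ≤ Real.log 2 := Real.log_nonneg (by norm_num)
  have hrec : ∀ r δ, r0 ≤ r → 0 < δ → δ ≤ 1 → r + 4 * δ ≤ r0 + 3 →
      SS g Λ r ≤ (p + 1) * (A + B * Real.log 2) + (p + 1) * B * Real.log
        (1000 * (r + 4 * δ) ^ 3 * (SS g Λ (r + 4 * δ) + 1) ^ 2 / δ ^ 4) := by
    intro r δ h1 h2 h3 _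
    have hr1 : 1 ≤ r := hr0.trans h1
    obtain ⟨s, ε, hrs, _, hε, hε1, hεX, h0, hb⟩ := hB.good hr1 h2 h3
    have hs : 0 < s := by linarith
    have hne : ∀ z, ‖z‖ = s → ∀ i, g i z ≠ 0 :=
      fun z hz i => h0 z hz i z (mem_closedBall_self hε.le)
    have h4 := hAB s ε hs hε hε1 h0 hb
    set X : ℝ := 1000 * (r + 4 * δ) ^ 3 * (SS g Λ (r + 4 * δ) + 1) ^ 2 / δ ^ 4 with hX
    have hSnn := hB.SS_nonneg (R := r + 4 * δ) (by linarith)
    have hXpos : 0 < X := by positivity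
    have h5 : Real.log (1 / ε) ≤ Real.log 2 + Real.log X := by
      rw [← Real.log_mul (by norm_num) hXpos.ne']
      exact Real.log_le_log (by positivity) hεX
    have h6 : SS g Λ s ≤ (p + 1) * (tau g s + Λ) := by
      unfold SS
      calc ∑ j, (T2 (g 0) (g j) s + Λ) ≤ ∑ _j : Fin (p + 1), (tau g s + Λ) :=
            Finset.sum_le_sum fun j _ => by linarith [T2_le_tau hg hs hne j]
        _ = (p + 1) * (tau g s + Λ) := by simp; ring
    have h7 := hB.SS_mono (by linarith : 0 < r) hrs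
    have h8 : B * Real.log (1 / ε) ≤ B * (Real.log 2 + Real.log X) :=
      mul_le_mul_of_nonneg_left h5 hB0
    have h9 : (p + 1) * (tau g s + Λ) ≤ (p + 1) * (A + B * (Real.log 2 + Real.log X)) :=
      mul_le_mul_of_nonneg_left (by linarith) (by positivity)
    calc SS g Λ r ≤ (p + 1) * (A + B * (Real.log 2 + Real.log X)) := by linarith
      _ = _ := by ring
  have hgrow := growth (SS g Λ) ((p + 1) * (A + B * Real.log 2)) ((p + 1) * B) r0
    (SS g Λ (r0 + 3)) (by positivity) (by positivity) hr0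
    (fun r h1 h2 => hB.SS_mono (by linarith) h2) hrec (fun r h1 => hB.SS_nonneg (by linarith))
  refine hgrow.trans (le_of_eq ?_)
  ring

/-- the number of zeros of a combination grows at most logarithmically -/
theorem zeros_log' {Λ K1 K2 : ℝ} (hB : Base g Λ)
    (hgr : ∀ r, 1 ≤ r → SS g Λ r ≤ K1 + K2 * Real.log (r + 3)) (j1 : Fin (p + 1)) (c : ℂ)
    (hg0' : g j1 0 - c * g 0 0 ≠ 0) :
    ∃ K : ℝ, ∀ (A : List ℂ) (ρ : ℝ), 1 ≤ ρ → A.Nodup →
      (∀ a ∈ A, g j1 a - c * g 0 a = 0 ∧ ‖a‖ ≤ ρ) →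
      (A.length : ℝ) * Real.log 2 ≤ K + K2 * Real.log (2 * ρ + 3) := by
  refine ⟨K1 + Real.log (1 + ‖c‖) - Real.log ‖g j1 0 - c * g 0 0‖, ?_⟩
  intro A ρ hρ hA hAz
  have hρ0 : 0 < ρ := by linarith
  have hgd : Differentiable ℂ (fun z => g j1 z - c * g 0 z) := (hB.hv j1).sub ((hB.hv 0).const_mul c)
  obtain ⟨k, hk, hke⟩ := distinct_fac A hA _ hgd (fun a ha => (hAz a ha).1)
  have hcnt := count_le A k hk hρ0 (R := 2 * ρ) (by linarith) (fun a ha => (hAz a ha).2)
    (by rw [← hke]; exact hg0')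
  have e1 : (fun z => P A z * k z) = fun z => g j1 z - c * g 0 z := funext fun z => (hke z).symm
  have e2 : 2 * ρ / ρ = 2 := by field_simp
  rw [← hke, e1, e2] at hcnt
  have hcomb := L_comb (hB.hv 0) (hB.hv j1) (x := 0) (hB.hv0 0) c hg0' (R := 2 * ρ) (by linarith)
  have hterm := hB.term_le j1 (R := 2 * ρ) (by linarith)
  have h9 := hgr (2 * ρ) (by linarith)
  have h10 := hB.hΛ0
  linarith

/-- the contradiction, by pulling back by the exponential function -/
theorem contra {n κ M : ℕ} (H : Fin (p + 1) → ℂ → ℂ) (hH : ∀ i, Differentiable ℂ (H i))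
    (hne : ∀ i, ∃ z, H i z ≠ 0) (hcz : ∀ z, ∃ i, H i z ≠ 0)
    (hord : ∀ z, (∃ i, H i z = 0) → (M : ℕ∞) ≤ ∑ i, analyticOrderAt (H i) z)
    (j1 : Fin (p + 1)) (hprop : ∀ c : ℂ, ∃ z, H j1 z - c * H 0 z ≠ 0)
    (E : Fin (p + 1) → ℂ → ℂ) (hEdef : E = fun i z => H i (Complex.exp z))
    {l : List (Circ E)} {F : Submodule ℂ (ℂ → ℂ)} (hch : Chain E l F) (hF : ∀ i, E i ∈ F)
    (hκ : ∀ C ∈ l, C.m * (C.m - 1) ≤ κ)
    (hmn : ∀ C ∈ l, C.m ≤ n + 1) (hlen : l.length ≤ n) (hM : n * κ * (p + 1) < M) : False := by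
  have hEa : ∀ j z, E j z = H j (Complex.exp z) := fun j z => by rw [hEdef]
  have hE : ∀ j, Differentiable ℂ (E j) := fun j => by
    rw [hEdef]
    exact (hH j).comp Complex.differentiable_exp
  have lift : ∀ f : ℂ → ℂ, Differentiable ℂ f → (∃ z, f z ≠ 0) → ∃ z, f (Complex.exp z) ≠ 0 := by
    intro f hf hz
    by_contra hcon
    push Not at hcon
    obtain ⟨z, hz⟩ := hz
    apply hz
    apply zero_of_punctured hf
    intro w hw
    rw [← Complex.exp_log hw]
    exact hcon _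
  have hEne : ∀ j, ∃ z, E j z ≠ 0 := fun j => by
    simp only [hEa]
    exact lift _ (hH j) (hne j)
  obtain ⟨z1, hz1⟩ := hEne 0
  set w0 : ℂ := Complex.exp z1 with hw0
  have hw0H : H 0 w0 ≠ 0 := by rw [← hEa]; exact hz1
  set c : ℂ := H j1 w0 / H 0 w0 with hc
  have hcz' : H j1 w0 - c * H 0 w0 = 0 := by rw [hc]; field_simp; ring
  have hgd : Differentiable ℂ (fun z => H j1 z - c * H 0 z) := (hH j1).sub ((hH 0).const_mul c)
  obtain ⟨zg, hzg⟩ := lift _ hgd (hprop c)
  have hgEd : Differentiable ℂ (fun z => E j1 z - c * E 0 z) := (hE j1).sub ((hE 0).const_mul c)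
  -- a base point where nothing vanishes
  have hev : ∀ᶠ z in 𝓝[≠] (0 : ℂ), (∀ j, E j z ≠ 0) ∧ (∀ C ∈ l, wr 1 C.U 0 z ≠ 0) ∧
      E j1 z - c * E 0 z ≠ 0 := by
    refine Filter.Eventually.and ?_ (Filter.Eventually.and ?_ ?_)
    · rw [Filter.eventually_all]
      intro j
      obtain ⟨z, hz⟩ := hEne j
      exact ev_ne (hE j) hz 0
    · clear hmn hlen hκ hch
      induction l with
      | nil => simp
      | cons C l ih =>
        obtain ⟨z, hz⟩ := C.wr_ne hE
        filter_upwards [ih, ev_ne (wr_diff 1 C.U (C.U_diff hE) 0) hz 0] with w h1 h2 C' hC'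
        rcases List.mem_cons.mp hC' with rfl | h
        · exact h2
        · exact h1 C' h
    · exact ev_ne hgEd (x := zg) (by simp only [hEa]; exact hzg) 0
  obtain ⟨z0, hz0, hz0w, hz0g⟩ := hev.exists
  set U : Fin (p + 1) → ℂ → ℂ := fun j z => E j (z + z0) with hUdef
  have hU : ∀ j, Differentiable ℂ (U j) := fun j => (hE j).comp (differentiable_id.add_const z0)
  have hchU := hch.shift z0
  have hwrU : ∀ C ∈ l.map (fun C => C.shift z0), wr 1 C.U 0 0 ≠ 0 := by
    intro C hC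
    obtain ⟨C', hC', rfl⟩ := List.mem_map.mp hC
    have h1 : wr 1 (C'.shift z0).U 0 0 = wr 1 C'.U 0 z0 := by
      unfold wr
      congr 1
      ext b l
      simp only [Matrix.of_apply]
      have h1 := iteratedDeriv_comp_add_const (n := (l : ℕ))
        (f := fun w => C'.U (Fin.succAbove 0 b) w ^ 1) (s := z0)
      have h2 := congrFun h1 0
      simp only [zero_add] at h2
      exact h2
    rw [h1]
    exact hz0w C' hC'
  have hordU : ∀ z, (∃ i, U i z = 0) → (M : ℕ∞) ≤ ∑ i, analyticOrderAt (U i) z := by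
    rintro z ⟨i, hi⟩
    have h1 := hord (Complex.exp (z + z0)) ⟨i, by rw [← hEa]; exact hi⟩
    refine h1.trans (le_of_eq ?_)
    refine Finset.sum_congr rfl fun i _ => ?_
    have hφ : Differentiable ℂ (fun z : ℂ => Complex.exp (z + z0)) := by fun_prop
    have e : U i = H i ∘ (fun z => Complex.exp (z + z0)) := by
      funext z
      exact hEa i _
    rw [e, analyticOrderAt_comp_of_deriv_ne_zero (hφ.analyticAt z)]
    have hd : HasDerivAt (fun z : ℂ => Complex.exp (z + z0)) (Complex.exp (z + z0) * 1) z :=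
      ((hasDerivAt_id z).add_const z0).cexp
    rw [hd.deriv, mul_one]
    exact Complex.exp_ne_zero _
  obtain ⟨Λ, K1, K2, hB, hK2, hgr⟩ := log_growth (g := U) (n := n) (κ := κ) (M := M) hU
    (fun i => by simpa [hUdef] using hz0 i)
    (fun z => by simp only [hUdef, hEa]; exact hcz _) hordU hchU (fun i => ⟨_, hF i, rfl⟩) hwrU
    (by
      intro C hC
      obtain ⟨C', hC', rfl⟩ := List.mem_map.mp hC
      exact hκ C' hC')
    (by
      intro C hC
      obtain ⟨C', hC', rfl⟩ := List.mem_map.mp hC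
      exact hmn C' hC') (by rw [List.length_map]; exact hlen) hM
  obtain ⟨K, hK⟩ := zeros_log' hB hgr j1 c (by simpa [hUdef] using hz0g)
  -- the zeros
  set ζ : ℂ := z1 - z0 with hζ
  let a : ℕ → ℂ := fun k => ζ + k * (2 * π * Complex.I)
  have hainj : Function.Injective a := by
    intro k k' h
    simp only [a] at h
    have h1 : (k : ℂ) * (2 * π * Complex.I) = k' * (2 * π * Complex.I) := add_left_cancel h
    have h2 := mul_right_cancel₀ Complex.two_pi_I_ne_zero h1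
    exact_mod_cast h2
  have hexp : ∀ k : ℕ, Complex.exp (a k + z0) = w0 := by
    intro k
    have : a k + z0 = z1 + k * (2 * π * Complex.I) := by
      simp only [a, hζ]; ring
    rw [this, Complex.exp_add, Complex.exp_nat_mul_two_pi_mul_I, mul_one]
  have hp : ∀ p : ℕ, (p : ℝ) * Real.log 2 ≤ K + K2 * Real.log (2 * (‖ζ‖ + 7 * p + 1) + 3) := by
    intro p
    have h1 := hK ((List.range p).map a) (‖ζ‖ + 7 * p + 1) (by
        have : 0 ≤ ‖ζ‖ := norm_nonneg _
        have : (0 : ℝ) ≤ p := Nat.cast_nonneg p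
        linarith)
      (List.nodup_range.map hainj) (by
        intro x hx
        obtain ⟨k, hk, rfl⟩ := List.mem_map.mp hx
        have hkp : k < p := List.mem_range.mp hk
        refine ⟨?_, ?_⟩
        · simp only [hUdef, hEa, hexp]
          exact hcz'
        · simp only [a]
          refine (norm_add_le _ _).trans ?_
          have h2 : ‖(k : ℂ) * (2 * π * Complex.I)‖ = k * (2 * π) := by
            rw [norm_mul, norm_mul, norm_mul, Complex.norm_natCast, Complex.norm_I,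
              Complex.norm_real, Real.norm_of_nonneg Real.pi_pos.le]
            simp
          rw [h2]
          have h3 : (k : ℝ) ≤ p := by exact_mod_cast hkp.le
          have h4 : 2 * π ≤ 7 := by have := Real.pi_lt_d2; linarith
          have h5 : (k : ℝ) * (2 * π) ≤ p * 7 :=
            mul_le_mul h3 h4 (by positivity) (Nat.cast_nonneg p)
          linarith)
    simpa using h1
  -- contradiction for large `p`
  set σ : ℝ := 56 * (K2 + 1) with hσ
  have hσpos : 0 < σ := by positivity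
  have hlog2 : (1 : ℝ) / 2 < Real.log 2 := by
    have := Real.log_two_gt_d9; linarith
  obtain ⟨p, hpp⟩ := exists_nat_gt (4 * (K + K2 * ((2 * ‖ζ‖ + 5) / σ) + K2 * Real.log σ))
  have h1 := hp p
  have hpn : (0 : ℝ) ≤ p := Nat.cast_nonneg p
  set X : ℝ := 2 * (‖ζ‖ + 7 * p + 1) + 3 with hX
  have hXpos : 0 < X := by
    have : 0 ≤ ‖ζ‖ := norm_nonneg _
    rw [hX]; linarith
  have h2 : Real.log X ≤ X / σ + Real.log σ := by
    have h3 : Real.log X = Real.log (X / σ) + Real.log σ := by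
      rw [Real.log_div hXpos.ne' hσpos.ne']; ring
    have h4 := Real.log_le_sub_one_of_pos (div_pos hXpos hσpos)
    linarith
  have h5 : K2 * Real.log X ≤ K2 * (X / σ + Real.log σ) := mul_le_mul_of_nonneg_left h2 hK2
  have h6 : K2 * (X / σ) ≤ K2 * ((2 * ‖ζ‖ + 5) / σ) + p / 4 := by
    have e : K2 * (X / σ) = K2 * ((2 * ‖ζ‖ + 5) / σ) + (K2 / (K2 + 1)) * (p / 4) := by
      rw [hX, hσ]
      field_simp
      ring
    rw [e]
    have : K2 / (K2 + 1) ≤ 1 := by
      rw [div_le_one (by linarith)]; linarith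
    have := mul_le_mul_of_nonneg_right this (show 0 ≤ (p : ℝ) / 4 by positivity)
    linarith
  have h7 : (p : ℝ) * (1 / 2) ≤ p * Real.log 2 := mul_le_mul_of_nonneg_left hlog2.le hpn
  nlinarith

end Pool.Agent.W602.NC
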