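import Pool.Agent.H159R3.NV.Final

/-!
Good circles for finitely many entire functions: near every circle there is a circle on which the
functions do not vanish and their ratios oscillate little.
-/

set_option autoImplicit false

namespace Pool.Agent.W602.NC

open Filter Metric Real Set Topology Pool.Agent.H159R3.NV

/-- normalised data at the origin -/
structure Base {p : ℕ} (v : Fin (p + 1) → ℂ → ℂ) (Λ : ℝ) : Prop where
  hv : ∀ j, Differentiable ℂ (v j)
  hv0 : ∀ j, v j 0 ≠ 0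
  hΛ0 : 0 ≤ Λ
  hΛ : ∀ j, |Real.log ‖v j 0‖| ≤ Λ

section

variable {p : ℕ} {v : Fin (p + 1) → ℂ → ℂ} {Λ : ℝ}

theorem Base.L_ge (h : Base v Λ) (j : Fin (p + 1)) {R : ℝ} (hR : 0 < R) : -Λ ≤ L (v j) R := by
  have h1 := jensen_entire hR (h.hv j) (h.hv0 j)
  have h2 := (abs_le.mp (h.hΛ j)).1
  linarith

theorem Base.term_nonneg (h : Base v Λ) (j : Fin (p + 1)) {R : ℝ} (hR : 0 < R) :
    0 ≤ T2 (v 0) (v j) R + Λ := by
  have h1 := h.L_ge 0 hR
  have h2 := T2_ge_L0 (v 0) (v j) R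
  linarith

theorem Base.term_le (h : Base v Λ) (j : Fin (p + 1)) {R : ℝ} (hR : 0 < R) :
    T2 (v 0) (v j) R + Λ ≤ SS v Λ R :=
  Finset.single_le_sum (f := fun j => T2 (v 0) (v j) R + Λ)
    (fun i _ => h.term_nonneg i hR) (Finset.mem_univ j)

theorem Base.SS_nonneg (h : Base v Λ) {R : ℝ} (hR : 0 < R) : 0 ≤ SS v Λ R :=
  Finset.sum_nonneg (fun i _ => h.term_nonneg i hR)

theorem Base.SS_mono (h : Base v Λ) {r R : ℝ} (hr : 0 < r) (hrR : r ≤ R) :
    SS v Λ r ≤ SS v Λ R := by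
  unfold SS
  apply Finset.sum_le_sum
  intro j _
  have := T2_mono (h.hv 0) (h.hv0 0) (h.hv j) hr hrR
  linarith

/-- good circles -/
theorem Base.good (h : Base v Λ) {r δ : ℝ} (hr : 1 ≤ r) (hδ : 0 < δ) (hδ1 : δ ≤ 1) :
    ∃ s ε : ℝ, r ≤ s ∧ s ≤ r + δ ∧ 0 < ε ∧ ε ≤ 1 ∧
      1 / ε ≤ 2 * (1000 * (r + 4 * δ) ^ 3 * (SS v Λ (r + 4 * δ) + 1) ^ 2 / δ ^ 4) ∧
      (∀ z, ‖z‖ = s → ∀ j, ∀ w ∈ closedBall z ε, v j w ≠ 0) ∧
      (∀ z, ‖z‖ = s → ∀ i j, ∀ w ∈ closedBall z ε,
        ‖v j w / v i w‖ ≤ Real.exp 1 * ‖v j z / v i z‖) := by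
  set R1 : ℝ := r + 3 * δ with hR1
  set R2 : ℝ := r + 4 * δ with hR2
  have hR1pos : 0 < R1 := by linarith
  have hR2pos : 0 < R2 := by linarith
  have hR12 : R1 < R2 := by linarith
  have hR2one : 1 ≤ R2 := by linarith
  set S : ℝ := SS v Λ R2 with hS
  have hS0 : 0 ≤ S := h.SS_nonneg hR2pos
  have hfac := fun j => factor_ball (v j) (h.hv j) (h.hv0 j) hR1pos
  choose Z k hk hvk hZ hkne using hfac
  -- counting
  have hcount : ∀ j, ((Z j).length : ℝ) * Real.log (R2 / R1) ≤ T2 (v 0) (v j) R2 + Λ := by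
    intro j
    have hne : P (Z j) 0 * k j 0 ≠ 0 := by rw [← hvk]; exact h.hv0 j
    have h1 := count_le (Z j) (k j) (hk j) hR1pos hR12 (hZ j) hne
    rw [← hvk] at h1
    have e : (fun z => P (Z j) z * k j z) = v j := funext fun z => (hvk j z).symm
    rw [e] at h1
    have h2 := T2_ge_L (h.hv 0) (h.hv j) (h.hv0 0) (h.hv0 j) hR2pos.ne'
    have h3 := (abs_le.mp (h.hΛ j)).1
    linarith
  set n : ℕ := ∑ j, (Z j).length with hn
  have hlog : δ / R2 ≤ Real.log (R2 / R1) := by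
    have h1 := Real.one_sub_inv_le_log_of_pos (div_pos hR2pos hR1pos)
    rw [inv_div] at h1
    have h2 : δ / R2 = 1 - R1 / R2 := by
      rw [hR1, eq_sub_iff_add_eq, ← add_div, div_eq_one_iff_eq hR2pos.ne', hR2]
      ring
    linarith
  have hnle : (n : ℝ) ≤ R2 * S / δ := by
    have h1 : (n : ℝ) * Real.log (R2 / R1) ≤ S := by
      rw [hn]
      push_cast
      rw [Finset.sum_mul]
      exact Finset.sum_le_sum fun j _ => hcount j
    have h2 : (n : ℝ) * (δ / R2) ≤ S :=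
      (mul_le_mul_of_nonneg_left hlog (Nat.cast_nonneg n)).trans h1
    rw [le_div_iff₀ hδ]
    have h3 : (n : ℝ) * δ = (n : ℝ) * (δ / R2) * R2 := by field_simp
    rw [h3]
    nlinarith
  have hnj : ∀ j, ((Z j).length : ℝ) ≤ n := by
    intro j
    have := Finset.single_le_sum (f := fun j => (Z j).length) (fun i _ => Nat.zero_le _)
      (Finset.mem_univ j)
    exact_mod_cast this
  -- means of log of the zero free parts
  set A : ℝ := 2 * S + 4 * n * Real.log (2 * R1) with hA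
  have hlogR1 : 0 ≤ Real.log (2 * R1) := Real.log_nonneg (by linarith)
  have hA0 : 0 ≤ A := by positivity
  have hmean : ∀ j, Real.circleAverage (fun z => |Real.log ‖k j z / k 0 z‖|) 0 R1 ≤ A := by
    intro j
    have hk0 : ∀ j, k j 0 ≠ 0 := fun j => hkne j 0 (by simpa using hR1pos.le)
    have i0 := ci_abs (ci_log (quot_mero (hk 0) (hk j)) R1)
    have i1 := ci_abs (ci_log (quot_mero (h.hv 0) (h.hv j)) R1)
    have i2 := ci_abs (ci_log (mero_of_diff (P_diff (Z j))) R1)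
    have i3 := ci_abs (ci_log (mero_of_diff (P_diff (Z 0))) R1)
    have h1 : Real.circleAverage (fun z => |Real.log ‖k j z / k 0 z‖|) 0 R1
        ≤ Real.circleAverage (fun z => |Real.log ‖v j z / v 0 z‖| + |Real.log ‖P (Z j) z‖|
          + |Real.log ‖P (Z 0) z‖|) 0 R1 := by
      apply avg_le_cod i0 ((i1.add i2).add i3) hR1pos.ne'
      filter_upwards [ne_cod (h.hv j) (h.hv0 j) R1, ne_cod (h.hv 0) (h.hv0 0) R1] with z hzj hz0
      change _ ≤ |Real.log ‖v j z / v 0 z‖| + |Real.log ‖P (Z j) z‖| + |Real.log ‖P (Z 0) z‖|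
      have hvj := hzj
      have hv0' := hz0
      rw [hvk j z] at hvj
      rw [hvk 0 z] at hv0'
      have a1 := norm_ne_zero_iff.mpr (left_ne_zero_of_mul hvj)
      have a2 := norm_ne_zero_iff.mpr (right_ne_zero_of_mul hvj)
      have a3 := norm_ne_zero_iff.mpr (left_ne_zero_of_mul hv0')
      have a4 := norm_ne_zero_iff.mpr (right_ne_zero_of_mul hv0')
      rw [hvk j z, hvk 0 z, norm_div, norm_div, norm_mul, norm_mul, Real.log_div a2 a4,
        Real.log_div (mul_ne_zero a1 a2) (mul_ne_zero a3 a4), Real.log_mul a1 a2,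
        Real.log_mul a3 a4]
      have e : Real.log ‖k j z‖ - Real.log ‖k 0 z‖
          = (Real.log ‖P (Z j) z‖ + Real.log ‖k j z‖ - (Real.log ‖P (Z 0) z‖ + Real.log ‖k 0 z‖))
            - Real.log ‖P (Z j) z‖ + Real.log ‖P (Z 0) z‖ := by ring
      calc |Real.log ‖k j z‖ - Real.log ‖k 0 z‖| = _ := congrArg abs e
        _ ≤ |(Real.log ‖P (Z j) z‖ + Real.log ‖k j z‖ - (Real.log ‖P (Z 0) z‖ + Real.log ‖k 0 z‖))
            - Real.log ‖P (Z j) z‖| + |Real.log ‖P (Z 0) z‖| := abs_add_le _ _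
        _ ≤ _ := by
          have := abs_sub (Real.log ‖P (Z j) z‖ + Real.log ‖k j z‖
            - (Real.log ‖P (Z 0) z‖ + Real.log ‖k 0 z‖)) (Real.log ‖P (Z j) z‖)
          linarith
    have i12 : CircleIntegrable (fun z => |Real.log ‖v j z / v 0 z‖| + |Real.log ‖P (Z j) z‖|)
        0 R1 := i1.add i2
    rw [Real.circleAverage_fun_add i12 i3, Real.circleAverage_fun_add i1 i2,
      avg_abs_quot (h.hv 0) (h.hv j) (h.hv0 0) (h.hv0 j) hR1pos.ne'] at h1
    have h2 := avg_abs_P (Z j) (R := R1) (by linarith) (hZ j)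
    have h3 := avg_abs_P (Z 0) (R := R1) (by linarith) (hZ 0)
    have h4 := T2_mono (h.hv 0) (h.hv0 0) (h.hv j) hR1pos hR12.le
    have h5 := h.L_ge 0 hR1pos
    have h6 := h.L_ge j hR1pos
    have h7 := h.term_le j hR2pos
    have h8 : ((Z j).length : ℝ) * (2 * Real.log (2 * R1)) ≤ n * (2 * Real.log (2 * R1)) :=
      mul_le_mul_of_nonneg_right (hnj j) (by linarith)
    have h9 : ((Z 0).length : ℝ) * (2 * Real.log (2 * R1)) ≤ n * (2 * Real.log (2 * R1)) :=
      mul_le_mul_of_nonneg_right (hnj 0) (by linarith)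
    rw [hA]
    linarith
  -- the good radius
  set Al : List ℝ := (List.ofFn Z).flatten.map (fun a => ‖a‖) with hAl
  have hAlen : Al.length = n := by
    rw [hAl, List.length_map, List.length_flatten, List.map_ofFn, List.sum_ofFn, hn]
    rfl
  obtain ⟨s, hrs, hsδ, hsA⟩ := good_radius Al r hδ
  rw [hAlen] at hsA
  set η : ℝ := δ / (2 * (n + 1)) with hη
  have hηpos : 0 < η := by positivity
  have hηδ : η ≤ δ := by
    rw [hη]
    apply div_le_self hδ.le
    have : (0 : ℝ) ≤ n := Nat.cast_nonneg n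
    linarith
  have hdist : ∀ z : ℂ, ‖z‖ = s → ∀ j, ∀ a ∈ Z j, η ≤ ‖z - a‖ := by
    intro z hz j a ha
    have h1 : ‖a‖ ∈ Al := by
      rw [hAl]
      apply List.mem_map_of_mem
      rw [List.mem_flatten]
      exact ⟨Z j, by rw [List.mem_ofFn]; exact ⟨j, rfl⟩, ha⟩
    have h2 := hsA ‖a‖ h1
    rw [← hz] at h2
    exact h2.trans (abs_norm_sub_norm_le z a)
  set Y : ℝ := 2 / η + 1 / δ + 8 * n / η + 4 * R1 * A / δ ^ 2 with hY
  have t1 : 0 < 2 / η := by positivity
  have t2 : 0 < 1 / δ := by positivity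
  have t3 : 0 ≤ 8 * n / η := by positivity
  have t4 : 0 ≤ 4 * R1 * A / δ ^ 2 := by positivity
  have hYpos : 0 < Y := by linarith
  set ε : ℝ := 1 / (2 * Y) with hε
  have hεpos : 0 < ε := by positivity
  have hεY : ε * Y = 1 / 2 := by rw [hε]; field_simp
  have hε1 : ε ≤ 1 := by
    rw [hε, div_le_one (by positivity)]
    have : 1 ≤ 1 / δ := by rw [le_div_iff₀ hδ]; linarith
    linarith
  have hεη : ε ≤ η / 2 := by
    rw [hε, div_le_iff₀ (by positivity)]
    have : η / 2 * (2 / η) = 1 := by field_simp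
    nlinarith
  have hεδ : ε ≤ δ := by linarith
  have hosc1 : 2 * (n * (2 * ε / η)) ≤ 1 / 4 := by
    have h1 : ε * (8 * n / η) ≤ 1 / 2 := by
      rw [← hεY]
      exact mul_le_mul_of_nonneg_left (by linarith) hεpos.le
    have h2 : 2 * ((n : ℝ) * (2 * ε / η)) = ε * (8 * n / η) / 2 := by ring
    rw [h2]
    linarith
  have hosc2 : 2 * R1 * ε / δ ^ 2 * A ≤ 1 / 4 := by
    have h1 : ε * (4 * R1 * A / δ ^ 2) ≤ 1 / 2 := by
      rw [← hεY]
      exact mul_le_mul_of_nonneg_left (by linarith) hεpos.le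
    have h2 : 2 * R1 * ε / δ ^ 2 * A = ε * (4 * R1 * A / δ ^ 2) / 2 := by ring
    rw [h2]
    linarith
  have hspos : 0 < s := by linarith
  have hne : ∀ z, ‖z‖ = s → ∀ j, ∀ w ∈ closedBall z ε, v j w ≠ 0 := by
    intro z hz j w hw
    rw [mem_closedBall, dist_eq_norm] at hw
    have h1 := (log_osc_P hηpos hεη hw (Z j) (hdist z hz j)).1
    rw [hvk]
    apply mul_ne_zero h1
    apply hkne
    calc ‖w‖ = ‖z + (w - z)‖ := by congr 1; ring
      _ ≤ ‖z‖ + ‖w - z‖ := norm_add_le _ _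
      _ ≤ R1 := by rw [hz, hR1]; linarith
  have hb : ∀ z, ‖z‖ = s → ∀ j, ∀ w ∈ closedBall z ε,
      |Real.log ‖v j w / v 0 w‖ - Real.log ‖v j z / v 0 z‖| ≤ 1 / 2 := by
    intro z hz j w hw
    have hzz : z ∈ closedBall z ε := mem_closedBall_self hεpos.le
    have b1 := hne z hz j w hw
    have b2 := hne z hz 0 w hw
    have b3 := hne z hz j z hzz
    have b4 := hne z hz 0 z hzz
    rw [mem_closedBall, dist_eq_norm] at hw
    have h1 := (log_osc_P hηpos hεη hw (Z j) (hdist z hz j)).2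
    have h2 := (log_osc_P hηpos hεη hw (Z 0) (hdist z hz 0)).2
    have hwn : ‖w‖ ≤ R1 - δ := by
      calc ‖w‖ = ‖z + (w - z)‖ := by congr 1; ring
        _ ≤ ‖z‖ + ‖w - z‖ := norm_add_le _ _
        _ ≤ _ := by rw [hz, hR1]; linarith
    have hzn : ‖z‖ ≤ R1 - δ := by rw [hz, hR1]; linarith
    have h3 := poisson_diff (k := fun z => k j z / k 0 z) hR1pos hδ
      (fun z hz => ((hk j).analyticAt z).div ((hk 0).analyticAt z) (hkne 0 z (by simpa using hz)))
      (fun z hz => div_ne_zero (hkne j z (by simpa using hz)) (hkne 0 z (by simpa using hz)))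
      hwn hzn
    have hA' := hmean j
    have h4 : 2 * R1 * ‖w - z‖ / δ ^ 2 *
        Real.circleAverage (fun ζ => |Real.log ‖k j ζ / k 0 ζ‖|) 0 R1
        ≤ 2 * R1 * ε / δ ^ 2 * A := by
      apply mul_le_mul _ hA' (Real.circleAverage_nonneg_of_nonneg (fun z _ => abs_nonneg _))
        (by positivity)
      gcongr
    have h5 : |Real.log ‖v j w / v 0 w‖ - Real.log ‖v j z / v 0 z‖| ≤ 1 / 2 := by
      rw [hvk j w, hvk 0 w] at *
      rw [hvk j z, hvk 0 z] at *
      have c1 := norm_ne_zero_iff.mpr (left_ne_zero_of_mul b1)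
      have c2 := norm_ne_zero_iff.mpr (right_ne_zero_of_mul b1)
      have c3 := norm_ne_zero_iff.mpr (left_ne_zero_of_mul b2)
      have c4 := norm_ne_zero_iff.mpr (right_ne_zero_of_mul b2)
      have d1 := norm_ne_zero_iff.mpr (left_ne_zero_of_mul b3)
      have d2 := norm_ne_zero_iff.mpr (right_ne_zero_of_mul b3)
      have d3 := norm_ne_zero_iff.mpr (left_ne_zero_of_mul b4)
      have d4 := norm_ne_zero_iff.mpr (right_ne_zero_of_mul b4)
      simp only [norm_div, norm_mul] at h3 ⊢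
      rw [Real.log_div c2 c4, Real.log_div d2 d4] at h3
      rw [Real.log_div (mul_ne_zero c1 c2) (mul_ne_zero c3 c4),
        Real.log_div (mul_ne_zero d1 d2) (mul_ne_zero d3 d4), Real.log_mul c1 c2,
        Real.log_mul c3 c4, Real.log_mul d1 d2, Real.log_mul d3 d4]
      simp only [norm_div] at h4
      have e1 : ((Z j).length : ℝ) * (2 * ε / η) ≤ n * (2 * ε / η) :=
        mul_le_mul_of_nonneg_right (hnj j) (by positivity)
      have e2 : ((Z 0).length : ℝ) * (2 * ε / η) ≤ n * (2 * ε / η) :=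
        mul_le_mul_of_nonneg_right (hnj 0) (by positivity)
      have f1 := abs_le.mp h1
      have f2 := abs_le.mp h2
      have f3 := abs_le.mp h3
      rw [abs_le]
      constructor <;> linarith
    exact h5
  refine ⟨s, ε, hrs, hsδ, hεpos, hε1, ?_, hne, ?_⟩
  · have e0 : 1 / ε = 2 * Y := by rw [hε]; field_simp
    rw [e0]
    exact mul_le_mul_of_nonneg_left
      (Y_bound hδ hδ1 hR1pos hR12.le hR2one hS0 (Nat.cast_nonneg n) hnle) (by norm_num)
  · intro z hz i j w hw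
    have hzz : z ∈ closedBall z ε := mem_closedBall_self hεpos.le
    have b1 := hne z hz j w hw
    have b2 := hne z hz i w hw
    have b3 := hne z hz j z hzz
    have b4 := hne z hz i z hzz
    have b5 := hne z hz 0 w hw
    have b6 := hne z hz 0 z hzz
    have h1 := abs_le.mp (hb z hz j w hw)
    have h2 := abs_le.mp (hb z hz i w hw)
    have h6 : Real.log ‖v j w / v i w‖ ≤ Real.log (Real.exp 1 * ‖v j z / v i z‖) := by
      rw [Real.log_mul (Real.exp_ne_zero _) (norm_ne_zero_iff.mpr (div_ne_zero b3 b4)),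
        Real.log_exp]
      simp only [norm_div] at h1 h2 ⊢
      rw [Real.log_div (norm_ne_zero_iff.mpr b1) (norm_ne_zero_iff.mpr b5),
        Real.log_div (norm_ne_zero_iff.mpr b3) (norm_ne_zero_iff.mpr b6)] at h1
      rw [Real.log_div (norm_ne_zero_iff.mpr b2) (norm_ne_zero_iff.mpr b5),
        Real.log_div (norm_ne_zero_iff.mpr b4) (norm_ne_zero_iff.mpr b6)] at h2
      rw [Real.log_div (norm_ne_zero_iff.mpr b1) (norm_ne_zero_iff.mpr b2),
        Real.log_div (norm_ne_zero_iff.mpr b3) (norm_ne_zero_iff.mpr b4)]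
      linarith
    exact (Real.log_le_log_iff (norm_pos_iff.mpr (div_ne_zero b1 b2))
      (mul_pos (Real.exp_pos _) (norm_pos_iff.mpr (div_ne_zero b3 b4)))).mp h6

end

end Pool.Agent.W602.NC
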