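import Pool.Agent.W602.NC.Chain

/-!
The growth estimate for functions linked by a chain of circuits.
-/

set_option autoImplicit false

namespace Pool.Agent.W602.NC

open Filter Metric Real Set Topology Pool.Agent.H159R3.NV

variable {p : ℕ} {g : Fin (p + 1) → ℂ → ℂ}

theorem list_const (l : List (Circ g)) (c : ℝ) (f : Circ g → ℝ) :
    (l.map fun C => c + f C).sum = l.length * c + (l.map f).sum := by
  induction l with
  | nil => simp
  | cons C l ih =>
    simp only [List.map_cons, List.sum_cons, ih, List.length_cons]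
    push_cast
    ring

theorem list_mul (l : List (Circ g)) (c : ℝ) (f : Circ g → ℝ) :
    (l.map fun C => c * f C).sum = c * (l.map f).sum := by
  induction l with
  | nil => simp
  | cons C l ih =>
    simp only [List.map_cons, List.sum_cons, ih]
    ring

theorem list_sub (l : List (Circ g)) (f h : Circ g → ℝ) :
    (l.map fun C => f C - h C).sum = (l.map f).sum - (l.map h).sum := by
  induction l with
  | nil => simp
  | cons C l ih =>
    simp only [List.map_cons, List.sum_cons, ih]
    ring

theorem list_log (l : List (Circ g)) (f : Circ g → ℝ) (hf : ∀ C, f C ≠ 0) :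
    Real.log (l.map f).prod = (l.map fun C => Real.log (f C)).sum := by
  induction l with
  | nil => simp
  | cons C l ih =>
    have h1 : (l.map f).prod ≠ 0 := by
      apply List.prod_ne_zero
      intro h0
      obtain ⟨C', _, h⟩ := List.mem_map.mp h0
      exact hf C' h
    simp only [List.map_cons, List.prod_cons, List.sum_cons]
    rw [Real.log_mul (hf C) h1, ih]

theorem err_le {m n : ℕ} (hm : m ≤ n + 1) {ε : ℝ} (hε : 0 < ε) (hε1 : ε ≤ 1) :
    err m ε ≤ (Real.log (Nat.factorial (n + 1)) + (n + 1) * (Real.log (Nat.factorial (n + 1)) + 1))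
      + (n + 1) ^ 2 * Real.log (1 / ε) := by
  have h1 : Real.log (Nat.factorial m) ≤ Real.log (Nat.factorial (n + 1)) := by
    apply Real.log_le_log
    · exact_mod_cast Nat.factorial_pos m
    · exact_mod_cast Nat.factorial_le hm
  have h2 : 0 ≤ Real.log (Nat.factorial m) :=
    Real.log_nonneg (by exact_mod_cast Nat.factorial_pos m)
  have h3 : 0 ≤ Real.log (1 / ε) := Real.log_nonneg (by rw [le_div_iff₀ hε]; linarith)
  have h4 : (m : ℝ) ≤ n + 1 := by exact_mod_cast hm
  have h5 : (0 : ℝ) ≤ m := Nat.cast_nonneg m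
  unfold err
  have h6 : (m : ℝ) * (Real.log (Nat.factorial m) + 1)
      ≤ (n + 1) * (Real.log (Nat.factorial (n + 1)) + 1) :=
    mul_le_mul h4 (by linarith) (by linarith) (by linarith)
  have h7 : (m : ℝ) ^ 2 * Real.log (1 / ε) ≤ (n + 1) ^ 2 * Real.log (1 / ε) :=
    mul_le_mul_of_nonneg_right (pow_le_pow_left₀ h5 h4 2) h3
  linarith

theorem circle_bound {n κ M : ℕ} (hg : ∀ i, Differentiable ℂ (g i)) (hg0 : ∀ i, g i 0 ≠ 0)
    (hcz : ∀ z, ∃ i, g i z ≠ 0)
    (hord : ∀ z, (∃ i, g i z = 0) → (M : ℕ∞) ≤ ∑ i, analyticOrderAt (g i) z)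
    {l : List (Circ g)} {F : Submodule ℂ (ℂ → ℂ)} (hch : Chain g l F) (hF : ∀ i, g i ∈ F)
    (hW : ∀ C ∈ l, wr 1 C.U 0 0 ≠ 0) (hκ : ∀ C ∈ l, C.m * (C.m - 1) ≤ κ)
    (hmn : ∀ C ∈ l, C.m ≤ n + 1) (hlen : l.length ≤ n) (hM : n * κ * (p + 1) < M) {Λ : ℝ}
    (hΛ : ∀ j, |Real.log ‖g j 0‖| ≤ Λ) :
    ∃ A B : ℝ, 0 ≤ A ∧ 0 ≤ B ∧ ∀ s ε : ℝ, 0 < s → 0 < ε → ε ≤ 1 →
      (∀ z, ‖z‖ = s → ∀ i, ∀ w ∈ closedBall z ε, g i w ≠ 0) →
      (∀ z, ‖z‖ = s → ∀ i j, ∀ w ∈ closedBall z ε,
        ‖g j w / g i w‖ ≤ Real.exp 1 * ‖g j z / g i z‖) →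
      tau g s + Λ ≤ A + B * Real.log (1 / ε) := by
  have hdom := fun i => chain_dom hch (hF i)
  choose K hK using hdom
  beta_reduce at hK
  set Km : ℝ := 1 + ∑ i, |K i| with hKm
  have hKm1 : 1 ≤ Km := by
    have : 0 ≤ ∑ i, |K i| := Finset.sum_nonneg fun i _ => abs_nonneg _
    linarith
  have hKle : ∀ i, K i ≤ Km := by
    intro i
    have h1 := Finset.single_le_sum (f := fun i => |K i|) (fun i _ => abs_nonneg _)
      (Finset.mem_univ i)
    have h2 := le_abs_self (K i)
    linarith
  have hU0 : ∀ (C : Circ g) j, C.U j 0 ≠ 0 := fun C j => mul_ne_zero (C.hc j) (hg0 _)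
  set C2 : ℝ := Real.log ‖g 0 0‖ - (l.map fun C => Real.log ‖C.U C.a 0‖).sum with hC2
  set a1 : ℝ := Real.log (Nat.factorial (n + 1))
    + (n + 1) * (Real.log (Nat.factorial (n + 1)) + 1) with ha1
  have ha1' : 0 ≤ a1 := by
    have : 0 ≤ Real.log (Nat.factorial (n + 1)) :=
      Real.log_nonneg (by exact_mod_cast Nat.factorial_pos (n + 1))
    positivity
  set SK : ℝ := (l.map fun C => |C.K M κ|).sum with hSK
  have hSK0 : 0 ≤ SK := List.sum_nonneg (by
    intro x hx
    obtain ⟨C, _, rfl⟩ := List.mem_map.mp hx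
    exact abs_nonneg _)
  have hM0 : (0 : ℝ) ≤ M := Nat.cast_nonneg M
  refine ⟨|M * (Real.log Km + C2 + Λ)| + SK + n * M * a1, n * M * (n + 1) ^ 2, by positivity,
    by positivity, ?_⟩
  intro s ε hs hε hε1 h0 hb
  have hne : ∀ z, ‖z‖ = s → ∀ i, g i z ≠ 0 := fun z hz i => h0 z hz i z (mem_closedBall_self hε.le)
  have hcz' := fun C : Circ g => common_zeros C.U (C.U_diff hg) 0 (hU0 C 0) (ρ := s) hs
  choose q V hq hq0 hV hfac hczV using hcz'
  have hVU : ∀ C j, V C j 0 = C.U j 0 := fun C j => by rw [hfac, hq0, one_mul]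
  have hVne : ∀ (C : Circ g) z, ‖z‖ = s → ∀ j, q C z ≠ 0 ∧ V C j z ≠ 0 := by
    intro C z hz j
    have h1 : C.U j z ≠ 0 := mul_ne_zero (C.hc j) (hne z hz _)
    rw [hfac] at h1
    exact ⟨left_ne_zero_of_mul h1, right_ne_zero_of_mul h1⟩
  -- step 1: comparison of `tau g` with the first function
  have hDV : ∀ (C : Circ g) z, ‖z‖ = s → C.D z = sup (V C) z / ‖V C C.a z‖ := by
    intro C z hz
    obtain ⟨hqz, hvz⟩ := hVne C z hz C.a
    have e1 : sup C.U z = ‖q C z‖ * sup (V C) z := by
      apply le_antisymm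
      · obtain ⟨j, hj⟩ := sup_attained C.U z
        rw [hj, hfac, norm_mul]
        exact mul_le_mul_of_nonneg_left (le_sup _ _ _) (norm_nonneg _)
      · obtain ⟨j, hj⟩ := sup_attained (V C) z
        rw [hj, ← norm_mul, ← hfac]
        exact le_sup _ _ _
    unfold Circ.D
    rw [e1, hfac, norm_mul, mul_div_mul_left _ _ (norm_ne_zero_iff.mpr hqz)]
  have hsupV : ∀ (C : Circ g) z, ‖z‖ = s → 0 < sup (V C) z := fun C z hz =>
    (norm_pos_iff.mpr (hVne C z hz 0).2).trans_le (le_sup _ _ _)
  have hiV : ∀ C : Circ g, CircleIntegrable (fun z => Real.log (sup (V C) z)) 0 s := fun C =>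
    tau_int (hV C) hs fun z hz => ⟨0, (hVne C z hz 0).2⟩
  have hiL : ∀ C : Circ g, CircleIntegrable (fun z => Real.log ‖V C C.a z‖) 0 s := fun C =>
    ci_log (mero_of_diff (hV C C.a)) s
  have hstep1 : tau g s ≤ Real.log Km + L (g 0) s
      + (l.map fun C => tau (V C) s - L (V C C.a) s).sum := by
    have hli := list_avg l (fun C z => Real.log (sup (V C) z) - Real.log ‖V C C.a z‖)
      (fun C => (hiV C).sub (hiL C))
    have e1 : (l.map fun C => tau (V C) s - L (V C C.a) s).sum
        = Real.circleAverage (fun z => (l.map fun C => Real.log (sup (V C) z)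
          - Real.log ‖V C C.a z‖).sum) 0 s := by
      rw [hli.2]
      congr 1
      apply List.map_congr_left
      intro C _
      rw [Real.circleAverage_fun_sub (hiV C) (hiL C)]
      rfl
    have i0 : CircleIntegrable (fun z => Real.log ‖g 0 z‖) 0 s := ci_log (mero_of_diff (hg 0)) s
    have i1 : CircleIntegrable (fun z => Real.log Km + Real.log ‖g 0 z‖) 0 s :=
      (circleIntegrable_const _ _ _).add i0
    have e2 : Real.log Km + L (g 0) s + Real.circleAverage (fun z => (l.map fun C =>
          Real.log (sup (V C) z) - Real.log ‖V C C.a z‖).sum) 0 s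
        = Real.circleAverage (fun z => (Real.log Km + Real.log ‖g 0 z‖) + (l.map fun C =>
          Real.log (sup (V C) z) - Real.log ‖V C C.a z‖).sum) 0 s := by
      rw [Real.circleAverage_fun_add i1 hli.1, Real.circleAverage_fun_add
        (circleIntegrable_const _ _ _) i0, Real.circleAverage_const]
      rfl
    rw [e1, e2]
    apply Real.circleAverage_mono (tau_int hg hs fun z hz => ⟨0, hne z hz 0⟩) (i1.add hli.1)
    intro z hz
    have hz' := sph_norm hs hz
    change Real.log (sup g z) ≤ (Real.log Km + Real.log ‖g 0 z‖) + (l.map fun C =>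
          Real.log (sup (V C) z) - Real.log ‖V C C.a z‖).sum
    obtain ⟨i, hi⟩ := sup_attained g z
    rw [hi]
    have h1 := hK i z (hne z hz')
    have hpD := one_le_prodD l (hne z hz')
    have hg0z : 0 < ‖g 0 z‖ := norm_pos_iff.mpr (hne z hz' 0)
    have h2 : ‖g i z‖ ≤ Km * (‖g 0 z‖ * prodD l z) :=
      h1.trans (mul_le_mul_of_nonneg_right (hKle i) (by positivity))
    have h3 := Real.log_le_log (norm_pos_iff.mpr (hne z hz' i)) h2
    rw [Real.log_mul (by positivity) (by positivity), Real.log_mul hg0z.ne' (by positivity)] at h3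
    have h4 : Real.log (prodD l z) = (l.map fun C =>
          Real.log (sup (V C) z) - Real.log ‖V C C.a z‖).sum := by
      unfold prodD
      rw [list_log l (fun C => C.D z) (fun C => by
        have := C.one_le_D (hne z hz')
        linarith)]
      congr 1
      apply List.map_congr_left
      intro C _
      rw [hDV C z hz', Real.log_div (hsupV C z hz').ne' (norm_ne_zero_iff.mpr (hVne C z hz' _).2)]
    linarith
  -- step 2: the zeros of the first function
  have hstep2 : L (g 0) s ≤ (l.map fun C => L (V C C.a) s).sum + C2 := by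
    obtain ⟨hA, hA0, hAL⟩ := list_L l (fun C => V C C.a) (fun C => hV C C.a)
      (fun C => by rw [hVU]; exact hU0 C _) (R := s) hs.ne'
    have h1 := jensen_ge (f := fun z => (l.map fun C => V C C.a z).prod / g 0 z) hs
      (quot_mero (hg 0) hA) (by
        intro x hx
        rw [mem_closedBall, dist_zero_right] at hx
        apply quot_order (hA.analyticAt x) ((hg 0).analyticAt x) (finite_order (hg 0) (hg0 0) x)
        have hn : ∀ C : Circ g, ∃ k : ℕ, analyticOrderAt (V C C.a) x = k := fun C => by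
          obtain ⟨k, hk⟩ := ENat.ne_top_iff_exists.mp
            (finite_order (hV C C.a) (by rw [hVU]; exact hU0 C _) x)
          exact ⟨k, hk.symm⟩
        choose o ho using hn
        rw [(list_ord l (fun C => V C C.a) (fun C => hV C C.a) x o ho).2]
        obtain ⟨n0, hn0⟩ := ENat.ne_top_iff_exists.mp (finite_order (hg 0) (hg0 0) x)
        rw [← hn0]
        have h2 := chain_ord hch hg x n0 hn0.le o (by
          intro C _ j
          have hU : ∀ j, analyticOrderAt (C.U j) x = analyticOrderAt (g (C.e j)) x := by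
            intro j
            have e : C.U j = (fun _ => C.c j) * g (C.e j) := rfl
            rw [e, analyticOrderAt_mul analyticAt_const ((hg _).analyticAt x)]
            have : analyticOrderAt (fun _ : ℂ => C.c j) x = 0 := by
              rw [analyticOrderAt_eq_zero]
              right
              exact C.hc j
            rw [this, zero_add]
          have hUV : ∀ j, analyticOrderAt (C.U j) x
              = analyticOrderAt (q C) x + analyticOrderAt (V C j) x := by
            intro j
            have e : C.U j = q C * V C j := funext fun z => hfac C j z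
            rw [e, analyticOrderAt_mul ((hq C).analyticAt x) ((hV C j).analyticAt x)]
          rw [← hU, ← hU, hUV, hUV, ho]
          calc analyticOrderAt (q C) x + o C
              ≤ (analyticOrderAt (q C) x + analyticOrderAt (V C j) x) + o C := by
                gcongr
                exact le_self_add
            _ = _ := rfl)
        obtain ⟨i, hi⟩ := hcz x
        have h3 := (h2 (hF i)).2
        rw [((hg i).analyticAt x).analyticOrderAt_eq_zero.mpr hi] at h3
        have h4 : n0 - (l.map o).sum ≤ 0 := by exact_mod_cast h3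
        have h5 : n0 ≤ (l.map o).sum := by omega
        exact_mod_cast h5)
      ((hA.analyticAt 0).div ((hg 0).analyticAt 0) (hg0 0)) (div_ne_zero hA0 (hg0 0))
    have h2 : L (fun z => (l.map fun C => V C C.a z).prod / g 0 z) s
        = L (fun z => (l.map fun C => V C C.a z).prod) s - L (g 0) s :=
      L_quot (hg 0) hA (x := 0) (y := 0) (hg0 0) hA0 hs.ne'
    rw [h2, hAL, norm_div, Real.log_div (norm_ne_zero_iff.mpr hA0)
      (norm_ne_zero_iff.mpr (hg0 0))] at h1
    have h3 : Real.log ‖(l.map fun C => V C C.a 0).prod‖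
        = (l.map fun C => Real.log ‖C.U C.a 0‖).sum := by
      have e : ‖(l.map fun C => V C C.a 0).prod‖ = (l.map fun C => ‖V C C.a 0‖).prod := by
        rw [List.norm_prod, List.map_map]
        rfl
      rw [e, list_log l (fun C => ‖V C C.a 0‖) (fun C => by
        rw [hVU]; exact norm_ne_zero_iff.mpr (hU0 C _))]
      congr 1
      apply List.map_congr_left
      intro C _
      rw [hVU]
    rw [h3] at h1
    rw [hC2]
    linarith
  -- step 3: the circuits
  have hLT : ∀ i, L (g i) s ≤ tau g s := fun i => L_le_tau hg hs hne i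
  have hT0 : 0 ≤ tau g s + Λ := by
    have h1 := hLT 0
    have h2 := jensen_entire hs (hg 0) (hg0 0)
    have h3 := (abs_le.mp (hΛ 0)).1
    linarith
  have hΛ0 : 0 ≤ Λ := (abs_nonneg _).trans (hΛ 0)
  set T' : ℝ := tau g s + Λ with hT'
  have hsumL : ∑ i, L (g i) s ≤ (p + 1) * T' := by
    calc ∑ i, L (g i) s ≤ ∑ _i : Fin (p + 1), T' :=
          Finset.sum_le_sum fun i _ => by linarith [hLT i]
      _ = (p + 1) * T' := by simp
  have hκ0 : (0 : ℝ) ≤ κ := Nat.cast_nonneg κ
  set lg : ℝ := Real.log (1 / ε) with hlg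
  have hlg0 : 0 ≤ lg := Real.log_nonneg (by rw [le_div_iff₀ hε]; linarith)
  have hstep3 : M * (l.map fun C => tau (V C) s).sum
      ≤ l.length * (M * (a1 + (n + 1) ^ 2 * lg) + κ * ((p + 1) * T')) + SK := by
    rw [← list_mul, hSK, ← list_const]
    apply List.sum_le_sum
    intro C hC
    have h1 := C.smt hg hg0 (hW C hC) (hκ C hC) hord (hq C) (hq0 C) (hV C) (hfac C) (hczV C) hs hε
      hε1 h0 hb
    have h2 := err_le (hmn C hC) hε hε1
    have h3 := mul_le_mul_of_nonneg_left h2 hM0
    have h4 := mul_le_mul_of_nonneg_left hsumL hκ0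
    have h5 := neg_abs_le (C.K M κ)
    linarith
  have hlen' : (l.length : ℝ) ≤ n := by exact_mod_cast hlen
  have hMr : (n : ℝ) * κ * (p + 1) + 1 ≤ M := by exact_mod_cast hM
  have hX0 : 0 ≤ M * (a1 + (n + 1) ^ 2 * lg) + κ * ((p + 1) * T') := by positivity
  have h4 : (l.length : ℝ) * (M * (a1 + (n + 1) ^ 2 * lg) + κ * ((p + 1) * T'))
      ≤ n * (M * (a1 + (n + 1) ^ 2 * lg) + κ * ((p + 1) * T')) :=
    mul_le_mul_of_nonneg_right hlen' hX0
  rw [list_sub] at hstep1
  have h5 : tau g s ≤ Real.log Km + C2 + (l.map fun C => tau (V C) s).sum := by linarith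
  have h6 : M * T' ≤ M * (Real.log Km + C2 + Λ)
      + (n * (M * (a1 + (n + 1) ^ 2 * lg) + κ * ((p + 1) * T')) + SK) := by
    have h7 := mul_le_mul_of_nonneg_left h5 hM0
    rw [hT']
    nlinarith
  have h7 : T' ≤ M * T' - n * κ * (p + 1) * T' := by nlinarith
  have h8 := le_abs_self (M * (Real.log Km + C2 + Λ))
  have h9 : n * (M * (a1 + (n + 1) ^ 2 * lg) + κ * ((p + 1) * T'))
      = n * M * a1 + n * M * (n + 1) ^ 2 * lg + n * κ * (p + 1) * T' := by ring
  linarith

end Pool.Agent.W602.NC
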