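import Pool.Agent.W602.NC.Good

/-!
Orders of Wronskians and the lower bound for their means.
-/

set_option autoImplicit false

namespace Pool.Agent.W602.NC

open Filter Metric Real Set Topology Pool.Agent.H159R3.NV

theorem ord_deriv {f : ℂ → ℂ} {x : ℂ} (hf : AnalyticAt ℂ f x) :
    analyticOrderAt f x ≤ analyticOrderAt (deriv f) x + 1 := by
  by_cases h0 : f x = 0
  · have := hf.analyticOrderAt_deriv_add_one
    rw [this]
    simp [h0]
  · rw [hf.analyticOrderAt_eq_zero.mpr h0]
    exact zero_le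

theorem ord_iter {f : ℂ → ℂ} {x : ℂ} (hf : AnalyticAt ℂ f x) (l : ℕ) :
    analyticOrderAt f x ≤ analyticOrderAt (iteratedDeriv l f) x + l := by
  induction l with
  | zero => simp
  | succ l ih =>
    have ha : AnalyticAt ℂ (iteratedDeriv l f) x := by
      rw [iteratedDeriv_eq_iterate]
      exact hf.iterated_deriv l
    have h1 := ord_deriv ha
    rw [← iteratedDeriv_succ] at h1
    calc analyticOrderAt f x ≤ analyticOrderAt (iteratedDeriv l f) x + l := ih
      _ ≤ (analyticOrderAt (iteratedDeriv (l + 1) f) x + 1) + l := by gcongr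
      _ = analyticOrderAt (iteratedDeriv (l + 1) f) x + ((l + 1 : ℕ) : ℕ∞) := by
        push_cast
        rw [add_assoc, add_comm 1 (l : ℕ∞)]

theorem ord_sum_ge {ι : Type*} (s : Finset ι) (f : ι → ℂ → ℂ) (x : ℂ) (N : ℕ∞)
    (h : ∀ i ∈ s, N ≤ analyticOrderAt (f i) x) :
    N ≤ analyticOrderAt (fun z => ∑ i ∈ s, f i z) x := by
  classical
  induction s using Finset.induction_on with
  | empty =>
    have : analyticOrderAt (fun z : ℂ => ∑ i ∈ (∅ : Finset ι), f i z) x = ⊤ := by
      rw [analyticOrderAt_eq_top]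
      simp
    rw [this]
    exact le_top
  | insert a s ha ih =>
    have e : (fun z => ∑ i ∈ insert a s, f i z) = (f a) + fun z => ∑ i ∈ s, f i z := by
      funext z
      rw [Finset.sum_insert ha]
      rfl
    rw [e]
    refine le_trans ?_ le_analyticOrderAt_add
    exact le_min (h a (Finset.mem_insert_self _ _))
      (ih (fun i hi => h i (Finset.mem_insert_of_mem hi)))

theorem ord_prod {ι : Type*} (s : Finset ι) (f : ι → ℂ → ℂ) (x : ℂ)
    (h : ∀ i ∈ s, AnalyticAt ℂ (f i) x) :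
    analyticOrderAt (fun z => ∏ i ∈ s, f i z) x = ∑ i ∈ s, analyticOrderAt (f i) x := by
  classical
  induction s using Finset.induction_on with
  | empty =>
    simp only [Finset.prod_empty, Finset.sum_empty]
    rw [analyticOrderAt_eq_zero]
    right
    exact one_ne_zero
  | insert a s ha ih =>
    have h1 : AnalyticAt ℂ (fun z => ∏ i ∈ s, f i z) x :=
      Finset.analyticAt_fun_prod s (fun i hi => h i (Finset.mem_insert_of_mem hi))
    have e : (fun z => ∏ i ∈ insert a s, f i z) = (f a) * fun z => ∏ i ∈ s, f i z := by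
      funext z
      rw [Finset.prod_insert ha]
      rfl
    rw [e, analyticOrderAt_mul (h a (Finset.mem_insert_self _ _)) h1,
      ih (fun i hi => h i (Finset.mem_insert_of_mem hi)), Finset.sum_insert ha]

theorem wr_order {m : ℕ} (v : Fin (m + 1) → ℂ → ℂ) (hv : ∀ j, Differentiable ℂ (v j))
    (i : Fin (m + 1)) (x : ℂ) (n : Fin m → ℕ)
    (hn : ∀ b, (n b : ℕ∞) ≤ analyticOrderAt (v (i.succAbove b)) x) :
    ((∑ b, (n b - (m - 1)) : ℕ) : ℕ∞) ≤ analyticOrderAt (wr 1 v i) x := by
  have e : wr 1 v i = fun z => ∑ σ : Equiv.Perm (Fin m), (((Equiv.Perm.sign σ : ℤ) : ℂ) *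
        ∏ k : Fin m, iteratedDeriv k (v (i.succAbove (σ k))) z) := by
    funext z
    unfold wr
    rw [Matrix.det_apply']
    simp only [pow_one, Matrix.of_apply]
  rw [e]
  apply ord_sum_ge
  intro σ _
  have ha : ∀ k : Fin m, AnalyticAt ℂ (iteratedDeriv k (v (i.succAbove (σ k)))) x := by
    intro k
    rw [iteratedDeriv_eq_iterate]
    exact ((hv _).analyticAt x).iterated_deriv k
  have hp : AnalyticAt ℂ (fun z => ∏ k : Fin m, iteratedDeriv k (v (i.succAbove (σ k))) z) x :=
    Finset.analyticAt_fun_prod _ (fun k _ => ha k)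
  have h1 : analyticOrderAt (fun z => ((Equiv.Perm.sign σ : ℤ) : ℂ) *
        ∏ k : Fin m, iteratedDeriv k (v (i.succAbove (σ k))) z) x
      = ∑ k : Fin m, analyticOrderAt (iteratedDeriv k (v (i.succAbove (σ k)))) x := by
    have e2 : (fun z => ((Equiv.Perm.sign σ : ℤ) : ℂ) *
        ∏ k : Fin m, iteratedDeriv k (v (i.succAbove (σ k))) z)
        = (fun _ => ((Equiv.Perm.sign σ : ℤ) : ℂ)) * fun z =>
          ∏ k : Fin m, iteratedDeriv k (v (i.succAbove (σ k))) z := rfl
    rw [e2, analyticOrderAt_mul analyticAt_const hp, ord_prod _ _ _ (fun k _ => ha k)]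
    have h3 : analyticOrderAt (fun _ : ℂ => ((Equiv.Perm.sign σ : ℤ) : ℂ)) x = 0 := by
      rw [analyticOrderAt_eq_zero]
      right
      rcases Int.units_eq_one_or (Equiv.Perm.sign σ) with h | h <;> simp [h]
    rw [h3, zero_add]
  rw [h1, Nat.cast_sum, ← Equiv.sum_comp σ (fun b => ((n b - (m - 1) : ℕ) : ℕ∞))]
  apply Finset.sum_le_sum
  intro k _
  rw [ENat.natCast_sub, tsub_le_iff_right]
  have hk := k.2
  calc (n (σ k) : ℕ∞) ≤ analyticOrderAt (v (i.succAbove (σ k))) x := hn (σ k)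
    _ ≤ analyticOrderAt (iteratedDeriv k (v (i.succAbove (σ k)))) x + ((k : ℕ) : ℕ∞) :=
        ord_iter ((hv _).analyticAt x) k
    _ ≤ _ := by
      gcongr
      omega

theorem L_pow {f : ℂ → ℂ} (N : ℕ) (R : ℝ) :
    L (fun z => f z ^ N) R = N * L f R := by
  unfold L
  rw [← smul_eq_mul, ← Real.circleAverage_fun_smul]
  congr 1
  funext z
  rw [norm_pow, Real.log_pow, smul_eq_mul]

theorem L_prod {ι : Type*} (s : Finset ι) (f : ι → ℂ → ℂ) (hf : ∀ i, Differentiable ℂ (f i))
    (h0 : ∀ i, f i 0 ≠ 0) {R : ℝ} (hR : R ≠ 0) :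
    L (fun z => ∏ i ∈ s, f i z) R = ∑ i ∈ s, L (f i) R := by
  classical
  induction s using Finset.induction_on with
  | empty =>
    simp only [Finset.prod_empty, Finset.sum_empty]
    unfold L
    simp [Real.circleAverage_const]
  | insert a s ha ih =>
    have e : (fun z => ∏ i ∈ insert a s, f i z) = fun z => f a z * ∏ i ∈ s, f i z := by
      funext z
      rw [Finset.prod_insert ha]
    rw [e, L_mul (hf a) (Differentiable.fun_finsetProd fun j _ => hf j) (x := 0) (y := 0) (h0 a)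
      (Finset.prod_ne_zero_iff.mpr fun j _ => h0 j) hR, ih, Finset.sum_insert ha]

theorem quot_order {A B : ℂ → ℂ} {x : ℂ} (hA : AnalyticAt ℂ A x) (hB : AnalyticAt ℂ B x)
    (hB0 : analyticOrderAt B x ≠ ⊤) (h : analyticOrderAt B x ≤ analyticOrderAt A x) :
    0 ≤ meromorphicOrderAt (fun z => A z / B z) x := by
  have e : (fun z => A z / B z) = A * B⁻¹ := by
    funext z
    simp [div_eq_mul_inv]
  rw [e, meromorphicOrderAt_mul hA.meromorphicAt hB.meromorphicAt.inv, meromorphicOrderAt_inv,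
    hA.meromorphicOrderAt_eq, hB.meromorphicOrderAt_eq]
  obtain ⟨b, hb⟩ := ENat.ne_top_iff_exists.mp hB0
  rw [← hb] at h ⊢
  cases ha : analyticOrderAt A x with
  | top => simp
  | coe a =>
    rw [ha] at h
    have h1 : b ≤ a := by exact_mod_cast h
    simp only [ENat.map_natCast]
    have : (((a : ℤ) : WithTop ℤ) + -(((b : ℤ) : WithTop ℤ))) = (((a : ℤ) - b : ℤ) : WithTop ℤ) := by
      rw [sub_eq_add_neg]
      rfl
    rw [this]
    have h2 : (0 : ℤ) ≤ (a : ℤ) - b := by omega
    exact_mod_cast h2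

theorem finite_order {f : ℂ → ℂ} (hf : Differentiable ℂ f) (h0 : f 0 ≠ 0) (x : ℂ) :
    analyticOrderAt f x ≠ ⊤ := by
  intro h
  have h1 := AnalyticOnNhd.analyticOrderAt_ne_top_of_isPreconnected (f := f) (U := Set.univ)
    (fun z _ => hf.analyticAt z) isPreconnected_univ (x := 0) (y := x) (mem_univ _) (mem_univ _)
    (by rw [(hf.analyticAt 0).analyticOrderAt_eq_zero.mpr h0]; simp)
  exact h1 h

/-- lower bound for the mean of the Wronskian in terms of the total ramification -/
theorem lower {p m M κ : ℕ} (g : Fin (p + 1) → ℂ → ℂ) (hg : ∀ i, Differentiable ℂ (g i))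
    (hg0 : ∀ i, g i 0 ≠ 0) (v : Fin (m + 1) → ℂ → ℂ) (hv : ∀ j, Differentiable ℂ (v j))
    (hv0 : ∀ j, v j 0 ≠ 0) (hs : ∀ z, ∑ j, v j z = 0) (hW : wr 1 v 0 0 ≠ 0) {R : ℝ} (hR : 0 < R)
    (hcz : ∀ z, ‖z‖ ≤ R → ∃ j, v j z ≠ 0) (hz : ∀ j z, v j z = 0 → ∃ i, g i z = 0)
    (hκ : m * (m - 1) ≤ κ)
    (hord : ∀ z, (∃ i, g i z = 0) → (M : ℕ∞) ≤ ∑ i, analyticOrderAt (g i) z) :
    M * Real.log ‖wr 1 v 0 0‖ + κ * ∑ i, Real.log ‖g i 0‖ - M * ∑ j, Real.log ‖v j 0‖
      ≤ M * L (wr 1 v 0) R + κ * ∑ i, L (g i) R - M * ∑ j, L (v j) R := by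
  have hWd : Differentiable ℂ (wr 1 v 0) := wr_diff 1 v hv 0
  have hPg : Differentiable ℂ (fun z => ∏ i, g i z) := Differentiable.fun_finsetProd fun j _ => hg j
  have hPv : Differentiable ℂ (fun z => ∏ j, v j z) := Differentiable.fun_finsetProd fun j _ => hv j
  have hPg0 : ∏ i, g i 0 ≠ 0 := Finset.prod_ne_zero_iff.mpr fun j _ => hg0 j
  have hPv0 : ∏ j, v j 0 ≠ 0 := Finset.prod_ne_zero_iff.mpr fun j _ => hv0 j
  let A : ℂ → ℂ := fun z => wr 1 v 0 z ^ M * (∏ i, g i z) ^ κ
  let B : ℂ → ℂ := fun z => (∏ j, v j z) ^ M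
  have hAd : Differentiable ℂ A := (hWd.pow M).mul (hPg.pow κ)
  have hBd : Differentiable ℂ B := hPv.pow M
  have hA0 : A 0 ≠ 0 := mul_ne_zero (pow_ne_zero _ hW) (pow_ne_zero _ hPg0)
  have hB0 : B 0 ≠ 0 := pow_ne_zero _ hPv0
  have hord2 : ∀ z ∈ closedBall (0 : ℂ) R, 0 ≤ meromorphicOrderAt (fun z => A z / B z) z := by
    intro z0 hz0
    rw [mem_closedBall, dist_zero_right] at hz0
    apply quot_order (hAd.analyticAt z0) (hBd.analyticAt z0) (finite_order hBd hB0 z0)
    obtain ⟨i, hi⟩ := hcz z0 hz0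
    have hng : ∀ i, ∃ k : ℕ, analyticOrderAt (g i) z0 = k := fun i => by
      obtain ⟨k, hk⟩ := ENat.ne_top_iff_exists.mp (finite_order (hg i) (hg0 i) z0)
      exact ⟨k, hk.symm⟩
    choose G hG using hng
    have hnv : ∀ j, ∃ k : ℕ, analyticOrderAt (v j) z0 = k := fun j => by
      obtain ⟨k, hk⟩ := ENat.ne_top_iff_exists.mp (finite_order (hv j) (hv0 j) z0)
      exact ⟨k, hk.symm⟩
    choose n hn using hnv
    obtain ⟨ε, hε, hεe⟩ := wr_norm 1 v hv (by simpa using hs) i
    have hwi := wr_order v hv i z0 (fun b => n (i.succAbove b)) (fun b => (hn _).ge)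
    have hwe : analyticOrderAt (wr 1 v 0) z0 = analyticOrderAt (wr 1 v i) z0 := by
      have e1 : wr 1 v i = (fun _ => ε) * wr 1 v 0 := by
        funext z
        rw [hεe z]
        rfl
      rw [e1, analyticOrderAt_mul analyticAt_const (hWd.analyticAt z0)]
      have : analyticOrderAt (fun _ : ℂ => ε) z0 = 0 := by
        rw [analyticOrderAt_eq_zero]
        right
        rcases hε with rfl | rfl <;> simp
      rw [this, zero_add]
    obtain ⟨w, hw⟩ := ENat.ne_top_iff_exists.mp (finite_order hWd hW z0)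
    rw [← hwe, ← hw] at hwi
    have hwi' : ∑ b, (n (i.succAbove b) - (m - 1)) ≤ w := by exact_mod_cast hwi
    have hni : n i = 0 := by
      have := ((hv i).analyticAt z0).analyticOrderAt_eq_zero.mpr hi
      rw [hn i] at this
      exact_mod_cast this
    have eA : analyticOrderAt A z0 = ((M * w + κ * ∑ i, G i : ℕ) : ℕ∞) := by
      have e1 : A = (wr 1 v 0) ^ M * (fun z => ∏ i, g i z) ^ κ := rfl
      rw [e1, analyticOrderAt_mul ((hWd.analyticAt z0).pow M) ((hPg.analyticAt z0).pow κ),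
        analyticOrderAt_pow (hWd.analyticAt z0), analyticOrderAt_pow (hPg.analyticAt z0),
        ord_prod _ _ _ (fun i _ => (hg i).analyticAt z0), ← hw]
      simp only [hG]
      push_cast
      simp only [nsmul_eq_mul]
    have eB : analyticOrderAt B z0 = ((M * ∑ j, n j : ℕ) : ℕ∞) := by
      have e1 : B = (fun z => ∏ j, v j z) ^ M := rfl
      rw [e1, analyticOrderAt_pow (hPv.analyticAt z0),
        ord_prod _ _ _ (fun i _ => (hv i).analyticAt z0)]
      simp only [hn]
      push_cast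
      simp only [nsmul_eq_mul]
    rw [eA, eB]
    have hsum : ∑ j, n j = ∑ b, n (i.succAbove b) := by
      rw [Fin.sum_univ_succAbove n i, hni, zero_add]
    have key : M * ∑ j, n j ≤ M * w + κ * ∑ i, G i := by
      by_cases hall : ∀ b, n (i.succAbove b) = 0
      · rw [hsum, Finset.sum_eq_zero (fun b _ => hall b)]
        simp
      · push Not at hall
        obtain ⟨b, hb⟩ := hall
        have hvb : v (i.succAbove b) z0 = 0 := by
          by_contra h0
          apply hb
          have := ((hv (i.succAbove b)).analyticAt z0).analyticOrderAt_eq_zero.mpr h0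
          rw [hn] at this
          exact_mod_cast this
        have h1 := hord z0 (hz _ _ hvb)
        have h2 : M ≤ ∑ i, G i := by
          simp only [hG] at h1
          exact_mod_cast h1
        have h3 : ∑ b, n (i.succAbove b) ≤ w + m * (m - 1) := by
          calc ∑ b, n (i.succAbove b) ≤ ∑ b : Fin m, ((n (i.succAbove b) - (m - 1)) + (m - 1)) :=
                Finset.sum_le_sum fun b _ => by omega
            _ = ∑ b, (n (i.succAbove b) - (m - 1)) + m * (m - 1) := by
                rw [Finset.sum_add_distrib]; simp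
            _ ≤ _ := by omega
        rw [hsum]
        calc M * ∑ b, n (i.succAbove b) ≤ M * (w + m * (m - 1)) := Nat.mul_le_mul_left _ h3
          _ = M * w + M * (m * (m - 1)) := by ring
          _ ≤ M * w + (∑ i, G i) * κ := by
              gcongr
          _ = _ := by ring
    exact_mod_cast key
  have hE0 : A 0 / B 0 ≠ 0 := div_ne_zero hA0 hB0
  have h1 := jensen_ge (f := fun z => A z / B z) hR (quot_mero hBd hAd) hord2
    ((hAd.analyticAt 0).div (hBd.analyticAt 0) hB0) hE0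
  have h2 : L (fun z => A z / B z) R = L A R - L B R := L_quot hBd hAd (x := 0) (y := 0) hB0 hA0 hR.ne'
  have h3 : L A R = M * L (wr 1 v 0) R + κ * ∑ i, L (g i) R := by
    have e1 : L A R = L (fun z => wr 1 v 0 z ^ M) R + L (fun z => (∏ i, g i z) ^ κ) R :=
      L_mul (hWd.pow M) (hPg.pow κ) (x := 0) (y := 0) (pow_ne_zero _ hW) (pow_ne_zero _ hPg0) hR.ne'
    rw [e1, L_pow, L_pow, L_prod _ g hg hg0 hR.ne']
  have h4 : L B R = M * ∑ j, L (v j) R := by
    have e1 : L B R = L (fun z => (∏ j, v j z) ^ M) R := rfl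
    rw [e1, L_pow, L_prod _ v hv hv0 hR.ne']
  have h5 : Real.log ‖A 0 / B 0‖ = M * Real.log ‖wr 1 v 0 0‖ + κ * ∑ i, Real.log ‖g i 0‖
      - M * ∑ j, Real.log ‖v j 0‖ := by
    rw [norm_div, Real.log_div (norm_ne_zero_iff.mpr hA0) (norm_ne_zero_iff.mpr hB0)]
    simp only [A, B]
    rw [norm_mul, Real.log_mul (norm_ne_zero_iff.mpr (pow_ne_zero _ hW))
      (norm_ne_zero_iff.mpr (pow_ne_zero _ hPg0)), norm_pow, norm_pow, norm_pow, Real.log_pow,
      Real.log_pow, Real.log_pow, norm_prod, norm_prod,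
      Real.log_prod (fun j _ => norm_ne_zero_iff.mpr (hg0 j)),
      Real.log_prod (fun j _ => norm_ne_zero_iff.mpr (hv0 j))]
  rw [h5, h2, h3, h4] at h1
  exact h1

end Pool.Agent.W602.NC
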